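import Mathlib

/-!
# Attached analytic discs for `K = {(z², f(z̄)) : |z| ≤ r}` with complex coefficients

Let `f(z) = z² + a₃ z³ + ...` be holomorphic on `|z| ≤ r`, with complex coefficients, some
odd-index coefficient being nonzero.  We construct a continuous map of the closed unit disc to `ℂ²`,
holomorphic inside, with boundary in `K` and whose image is not contained in `K`.

Outline.  Put `q(z) = conj (f (conj z))`.  The germ `q = z² + ...` has a deck involution `τ`, and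
`T = -τ` is tangent to the identity.  In a suitable local coordinate `P` one has
`T : P - δ(P) ↦ P + δ(P)` with an even analytic germ `δ ≢ 0`.  An inverse Fatou coordinate `Ψ` of `T`
is built on a half-plane `Re s > C` (`Ψ(s+1) = T(Ψ(s))`, `Ψ(s) → 0` as `|s| → ∞`), so
`q(Ψ(s)) = q(-Ψ(s+1))`.  On the strip `c ≤ Re s ≤ c + 1/2` the map
`s ↦ (Ψ(s)², f(conj Ψ(2c - conj s)))` is holomorphic, has boundary values in `K`, and tends to
`(0,0)` at the two ends of the strip; the strip is a conformal disc.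
-/

open Filter Topology Set
open scoped ComplexConjugate

namespace Pool.Agent.Results.MP_543b58_an.AttachedDisc

/-- Local inverse of an analytic germ fixing `0` with nonvanishing derivative. -/
lemma exists_local_inverse (F : ℂ → ℂ) (hF : AnalyticAt ℂ F 0) (h0 : F 0 = 0)
    (h1 : deriv F 0 ≠ 0) :
    ∃ G : ℂ → ℂ, AnalyticAt ℂ G 0 ∧ G 0 = 0 ∧ deriv G 0 = (deriv F 0)⁻¹ ∧
      (∀ᶠ z in 𝓝 0, G (F z) = z) ∧ (∀ᶠ z in 𝓝 0, F (G z) = z) := by
  have hs := hF.hasStrictDerivAt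
  have a1 := hF.analyticAt_localInverse h1
  have a2 : HasStrictDerivAt.localInverse F (deriv F 0) 0 hs h1 (F 0) = 0 :=
    HasStrictFDerivAt.localInverse_apply_image ..
  have a3 := (HasStrictDerivAt.to_localInverse hs h1).hasDerivAt.deriv
  have a4 := HasStrictDerivAt.eventually_left_inverse hs h1
  have a5 := HasStrictDerivAt.eventually_right_inverse hs h1
  refine ⟨HasStrictDerivAt.localInverse F (deriv F 0) 0 hs h1, ?_, ?_, ?_, a4, ?_⟩
  · rw [h0] at a1; exact a1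
  · rw [h0] at a2; exact a2
  · rw [h0] at a3; exact a3
  · rw [h0] at a5; exact a5

/-- Splitting off `z^2` and taking the square root of an analytic germ `q = z^2 + ...`. -/
lemma exists_sqrt (q : ℂ → ℂ) (hq : AnalyticAt ℂ q 0) (h0 : q 0 = 0) (h1 : deriv q 0 = 0)
    (h2 : iteratedDeriv 2 q 0 = 2) :
    ∃ S : ℂ → ℂ, AnalyticAt ℂ S 0 ∧ S 0 = 0 ∧ deriv S 0 = 1 ∧ ∀ᶠ z in 𝓝 0, q z = (S z) ^ 2 := by
  obtain ⟨F, hF, hqF⟩ := hq.exists_eq_sum_add_pow_mul 3
  have hq2 : ∀ z, q z = z ^ 2 * (1 + z * F z) := by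
    intro z
    rw [hqF z]
    simp [Finset.sum_range_succ, h0, h1, h2, iteratedDeriv_one]
    ring
  have hk : AnalyticAt ℂ (fun z => 1 + z * F z) 0 := by fun_prop
  have hlog : AnalyticAt ℂ (fun z => Complex.log (1 + z * F z)) 0 := by
    apply hk.clog
    simp
  have hE : AnalyticAt ℂ (fun z => Complex.exp (Complex.log (1 + z * F z) / 2)) 0 := by
    fun_prop
  refine ⟨fun z => z * Complex.exp (Complex.log (1 + z * F z) / 2), by fun_prop, by simp, ?_, ?_⟩
  · have h := (hasDerivAt_id (0:ℂ)).mul hE.differentiableAt.hasDerivAt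
    have h' := h.deriv
    simp at h'
    exact h'
  · have hne : ∀ᶠ z in 𝓝 (0:ℂ), (1 + z * F z) ≠ 0 := by
      apply hk.continuousAt.eventually_ne
      simp
    filter_upwards [hne] with z hz
    rw [hq2, mul_pow, ← Complex.exp_nat_mul]
    congr 1
    have : ((2:ℕ):ℂ) * (Complex.log (1 + z * F z) / 2) = Complex.log (1 + z * F z) := by
      push_cast; ring
    rw [this, Complex.exp_log hz]

/-- The deck involution datum: an even analytic `δ` of finite even order with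
`q (P - δ P) = q (-P - δ P)`. -/
lemma exists_delta (q : ℂ → ℂ) (hq : AnalyticAt ℂ q 0) (h0 : q 0 = 0) (h1 : deriv q 0 = 0)
    (h2 : iteratedDeriv 2 q 0 = 2) (hne : ¬ ∀ᶠ z in 𝓝 0, q (-z) = q z) :
    ∃ δ : ℂ → ℂ, AnalyticAt ℂ δ 0 ∧ δ 0 = 0 ∧ (∀ᶠ z in 𝓝 0, δ (-z) = δ z) ∧
      (¬ ∀ᶠ z in 𝓝 0, δ z = 0) ∧ (∀ᶠ z in 𝓝 0, q (z - δ z) = q (-z - δ z)) := by
  obtain ⟨S, hS, hS0, hS1, hqS⟩ := exists_sqrt q hq h0 h1 h2
  obtain ⟨R, hR, hR0, hR1, hRS, hSR⟩ := exists_local_inverse S hS hS0 (by rw [hS1]; norm_num)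
  have hqR : ∀ᶠ z in 𝓝 0, q (R z) = z ^ 2 := by
    have ht : Tendsto R (𝓝 0) (𝓝 0) := by
      have := hR.continuousAt.tendsto
      rwa [hR0] at this
    filter_upwards [ht.eventually hqS, hSR] with z hz1 hz2
    rw [hz1, hz2]
  have hneg : Tendsto (fun z : ℂ => -z) (𝓝 0) (𝓝 0) := by
    have := (continuous_neg (G := ℂ)).tendsto 0
    simpa using this
  have hRn : AnalyticAt ℂ (fun z => R (-z)) 0 := by
    apply AnalyticAt.fun_comp (g := R) (f := fun z => -z)
    · simpa using hR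
    · fun_prop
  set Ro : ℂ → ℂ := fun z => (R z - R (-z)) / 2 with hRo
  set Re : ℂ → ℂ := fun z => (R z + R (-z)) / 2 with hRe
  have hRoA : AnalyticAt ℂ Ro 0 :=
    (hR.fun_sub hRn).fun_div analyticAt_const (by norm_num)
  have hReA : AnalyticAt ℂ Re 0 :=
    (hR.fun_add hRn).fun_div analyticAt_const (by norm_num)
  have hRo0 : Ro 0 = 0 := by simp [hRo]
  have hRe0 : Re 0 = 0 := by simp [hRe, hR0]
  have hRo1 : deriv Ro 0 = 1 := by
    have e1 : HasDerivAt R 1 0 := by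
      have := hR.differentiableAt.hasDerivAt
      rw [hR1, hS1] at this
      simpa using this
    have e2 : HasDerivAt (fun z => R (-z)) (-1) 0 := by
      have e3 : HasDerivAt R 1 (-0) := by simpa using e1
      have h5 := e3.comp (0:ℂ) (hasDerivAt_neg (0:ℂ))
      have h6 : (1:ℂ) * -1 = -1 := by norm_num
      rw [h6] at h5
      exact h5
    have e4 := (e1.sub e2).div_const 2
    have := e4.deriv
    have e5 : ((1:ℂ) - -1) / 2 = 1 := by norm_num
    rw [e5] at this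
    exact this
  obtain ⟨L, hL, hL0, -, hLRo, hRoL⟩ := exists_local_inverse Ro hRoA hRo0 (by rw [hRo1]; norm_num)
  have htL : Tendsto L (𝓝 0) (𝓝 0) := by
    have := hL.continuousAt.tendsto
    rwa [hL0] at this
  have htRo : Tendsto Ro (𝓝 0) (𝓝 0) := by
    have := hRoA.continuousAt.tendsto
    rwa [hRo0] at this
  have hRoodd : ∀ z, Ro (-z) = - Ro z := by
    intro z; simp only [hRo, neg_neg]; ring
  have hReeven : ∀ z, Re (-z) = Re z := by
    intro z; simp only [hRe, neg_neg]; ring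
  have hLodd : ∀ᶠ z in 𝓝 0, L (-z) = - L z := by
    have htn : Tendsto (fun z => - L z) (𝓝 0) (𝓝 0) := hneg.comp htL
    filter_upwards [htn.eventually hLRo, hRoL] with z hz1 hz2
    rw [hRoodd, hz2] at hz1
    exact hz1
  refine ⟨fun z => - Re (L z), ?_, by simp [hL0, hRe0], ?_, ?_, ?_⟩
  · have : AnalyticAt ℂ (fun z => Re (L z)) 0 := by
      apply AnalyticAt.fun_comp (g := Re) (f := L)
      · rw [hL0]; exact hReA
      · exact hL
    exact this.neg
  · filter_upwards [hLodd] with z hz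
    simp only [hz, hReeven]
  · intro hall
    apply hne
    have e1 : ∀ᶠ z in 𝓝 0, R (-z) = - R z := by
      filter_upwards [htRo.eventually hall, hLRo] with z hz1 hz2
      rw [hz2] at hz1
      have hz3 : (R z + R (-z)) / 2 = 0 := by
        have : Re z = 0 := by simpa using hz1
        simpa [hRe] using this
      linear_combination 2 * hz3
    have htS : Tendsto S (𝓝 0) (𝓝 0) := by
      have := hS.continuousAt.tendsto
      rwa [hS0] at this
    have htSn : Tendsto (fun z => - S z) (𝓝 0) (𝓝 0) := hneg.comp htS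
    filter_upwards [htS.eventually e1, hRS, htS.eventually hqR, htSn.eventually hqR] with z a1 a2 a3 a4
    rw [a2] at a1 a3
    rw [a1] at a4
    rw [a4, a3]
    ring
  · have htLn : Tendsto (fun z => - L z) (𝓝 0) (𝓝 0) := hneg.comp htL
    filter_upwards [htL.eventually hqR, htLn.eventually hqR, hRoL] with z a1 a2 a3
    have b1 : z - -Re (L z) = R (L z) := by
      have : z = (R (L z) - R (-(L z))) / 2 := by
        conv_lhs => rw [← a3]
      simp only [hRe]
      linear_combination this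
    have b2 : -z - -Re (L z) = R (-(L z)) := by
      have : z = (R (L z) - R (-(L z))) / 2 := by
        conv_lhs => rw [← a3]
      simp only [hRe]
      linear_combination -this
    rw [b1, b2, a1, a2]
    ring

/-- Factorisation of an even analytic germ vanishing at `0`. -/
lemma exists_factor (δ : ℂ → ℂ) (hδ : AnalyticAt ℂ δ 0) (h0 : δ 0 = 0)
    (hev : ∀ᶠ z in 𝓝 0, δ (-z) = δ z) (hne : ¬ ∀ᶠ z in 𝓝 0, δ z = 0) :
    ∃ (m : ℕ) (d : ℂ → ℂ), Odd m ∧ AnalyticAt ℂ d 0 ∧ d 0 ≠ 0 ∧ (∀ᶠ z in 𝓝 0, d (-z) = d z) ∧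
      ∀ᶠ z in 𝓝 0, δ z = z ^ (m + 1) * d z := by
  have hord : analyticOrderAt δ 0 ≠ ⊤ := by
    intro h
    exact hne (analyticOrderAt_eq_top.mp h)
  obtain ⟨d, hd, hd0, hdz⟩ := (hδ.analyticOrderAt_ne_top).mp hord
  set n := analyticOrderNatAt δ 0 with hn
  have hdz' : ∀ᶠ z in 𝓝 0, δ z = z ^ n * d z := by
    filter_upwards [hdz] with z hz
    simpa using hz
  have hneg : Tendsto (fun z : ℂ => -z) (𝓝 0) (𝓝 0) := by
    have := (continuous_neg (G := ℂ)).tendsto 0
    simpa using this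
  have hnpos : n ≠ 0 := by
    intro h
    have := hdz'.self_of_nhds
    rw [h0, h] at this
    simp at this
    exact hd0 this.symm
  have key : ∀ᶠ z in 𝓝[≠] (0:ℂ), (-1) ^ n * d (-z) = d z := by
    have e1 : ∀ᶠ z in 𝓝 (0:ℂ), z ^ n * ((-1) ^ n * d (-z)) = z ^ n * d z := by
      filter_upwards [hdz', hneg.eventually hdz', hev] with z a1 a2 a3
      rw [a1, a2, neg_pow] at a3
      linear_combination a3
    filter_upwards [e1.filter_mono nhdsWithin_le_nhds, self_mem_nhdsWithin] with z a1 a2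
    exact mul_left_cancel₀ (pow_ne_zero n a2) a1
  have hdn : ContinuousAt (fun z => (-1) ^ n * d (-z)) 0 := by
    apply ContinuousAt.mul continuousAt_const
    apply ContinuousAt.comp' (g := d) (f := fun z => -z)
    · simpa using hd.continuousAt
    · exact continuousAt_neg
  have key0 : (-1) ^ n * d (-0) = d 0 := by
    have t1 : Tendsto (fun z => (-1) ^ n * d (-z)) (𝓝[≠] (0:ℂ)) (𝓝 ((-1) ^ n * d (-0))) :=
      hdn.tendsto.mono_left nhdsWithin_le_nhds
    have t2 : Tendsto d (𝓝[≠] (0:ℂ)) (𝓝 (d 0)) := hd.continuousAt.tendsto.mono_left nhdsWithin_le_nhds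
    exact tendsto_nhds_unique (t1.congr' key) t2
  have hev' : Even n := by
    by_contra hodd
    rw [Nat.not_even_iff_odd] at hodd
    rw [hodd.neg_one_pow] at key0
    simp at key0
    apply hd0
    have : (2:ℂ) * d 0 = 0 := by linear_combination -key0
    simpa using this
  obtain ⟨m, hm⟩ : ∃ m, n = m + 1 := Nat.exists_eq_succ_of_ne_zero hnpos
  refine ⟨m, d, ?_, hd, hd0, ?_, ?_⟩
  · rw [hm] at hev'
    rcases Nat.even_or_odd m with h | h
    · exfalso
      exact (Nat.not_even_iff_odd.mpr (Even.add_one h)) hev'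
    · exact h
  · rw [hev'.neg_one_pow] at key
    rw [← nhdsNE_sup_pure, eventually_sup]
    refine ⟨?_, ?_⟩
    · filter_upwards [key] with z hz
      simpa using hz
    · simp
  · filter_upwards [hdz'] with z hz
    rw [hz, hm]

lemma one_div_pow_expand (j : ℕ) : ∃ H : ℂ → ℂ, AnalyticAt ℂ H 0 ∧
    ∀ ε : ℂ, 1 / (1 + ε) ^ j - 1 / (1 - ε) ^ j = -2 * j * ε + ε ^ 3 * H ε := by
  have hg : AnalyticAt ℂ (fun ε : ℂ => 1 / (1 + ε) ^ j) 0 := by
    apply AnalyticAt.fun_div analyticAt_const (by fun_prop)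
    simp
  obtain ⟨G, hG, hgG⟩ := hg.exists_eq_sum_add_pow_mul 3
  have hd : deriv (fun ε : ℂ => 1 / (1 + ε) ^ j) 0 = - j := by
    have h1 : HasDerivAt (fun ε : ℂ => (1 + ε)) 1 0 := by
      simpa using (hasDerivAt_id (0:ℂ)).const_add 1
    have h2 := (h1.fun_pow j).fun_inv (by simp)
    have h3 := h2.deriv
    simp at h3
    simpa using h3
  have hGn : AnalyticAt ℂ (fun z => G (-z)) 0 := by
    apply AnalyticAt.fun_comp (g := G) (f := fun z => -z)
    · simpa using hG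
    · fun_prop
  refine ⟨fun ε => G ε + G (-ε), hG.fun_add hGn, ?_⟩
  intro ε
  have e1 := hgG ε
  have e2 := hgG (-ε)
  have e3 : (1:ℂ) - ε = 1 + (-ε) := by ring
  rw [e3, e1, e2]
  simp only [Finset.sum_range_succ, Finset.sum_range_zero, iteratedDeriv_one, hd]
  simp
  ring

/-- The approximate Abel function. -/
lemma exists_theta (m : ℕ) (hm : Odd m) (d : ℂ → ℂ) (hd : AnalyticAt ℂ d 0) (hd0 : d 0 ≠ 0)
    (hev : ∀ᶠ z in 𝓝 0, d (-z) = d z) :
    ∃ B : ℂ → ℂ, AnalyticAt ℂ B 0 ∧ B 0 ≠ 0 ∧ ∃ W : ℂ → ℂ, AnalyticAt ℂ W 0 ∧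
      ∀ᶠ z in 𝓝 0, z ≠ 0 →
        B (z + z ^ (m + 1) * d z) / (z + z ^ (m + 1) * d z) ^ m
          - B (z - z ^ (m + 1) * d z) / (z - z ^ (m + 1) * d z) ^ m - 1 = z ^ (m + 1) * W z := by
  have hmpos : 0 < m := hm.pos
  set a : ℂ → ℂ := fun z => 1 / (2 * d z) with ha
  have haA : AnalyticAt ℂ a 0 := by
    apply AnalyticAt.fun_div analyticAt_const (by fun_prop)
    simpa using hd0
  obtain ⟨F, hF, haF⟩ := haA.exists_eq_sum_add_pow_mul (m + 1)
  have ham : iteratedDeriv m a 0 = 0 := by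
    have h1 : (fun z => a (-z)) =ᶠ[𝓝 0] a := by
      filter_upwards [hev] with z hz
      simp only [ha, hz]
    have h2 := h1.iteratedDeriv_eq m
    rw [iteratedDeriv_comp_neg, hm.neg_one_pow] at h2
    simp at h2
    have : (2:ℂ) * iteratedDeriv m a 0 = 0 := by linear_combination -h2
    simpa using this
  choose H hH hHe using one_div_pow_expand
  set c : ℕ → ℂ := fun i => iteratedDeriv i a 0 / (i.factorial : ℂ) with hc
  have haF' : ∀ z, a z = (∑ i ∈ Finset.range m, c i * z ^ i) + z ^ (m + 1) * F z := by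
    intro z
    rw [haF z, Finset.sum_range_succ, ham]
    simp only [smul_eq_mul, mul_zero, add_zero, hc]
    congr 1
    apply Finset.sum_congr rfl
    intro i _
    ring
  set B : ℂ → ℂ := fun w => ∑ i ∈ Finset.range m, (c i / ((i:ℂ) - m)) * w ^ i with hB
  have hBA : AnalyticAt ℂ B 0 := by
    apply Finset.analyticAt_fun_sum
    intro i _
    fun_prop
  have hB0 : B 0 ≠ 0 := by
    obtain ⟨m', hm'⟩ : ∃ m', m = m' + 1 := Nat.exists_eq_succ_of_ne_zero hmpos.ne'
    have : B 0 = c 0 / (-(m:ℂ)) := by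
      simp only [hB]
      rw [Finset.sum_eq_single 0]
      · simp
      · intro i _ hi
        simp [hi]
      · intro h
        simp at h
        omega
    rw [this]
    have hc0 : c 0 ≠ 0 := by
      simp [hc, ha, hd0]
    apply div_ne_zero hc0
    simpa using hmpos.ne'
  refine ⟨B, hBA, hB0, fun z => -2 * d z * F z + ∑ i ∈ Finset.range m,
    (c i / ((i:ℂ) - m)) * (z ^ (m - 1 + i) * d z ^ 3 * H (m - i) (z ^ m * d z)), ?_, ?_⟩
  · apply AnalyticAt.fun_add (by fun_prop)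
    apply Finset.analyticAt_fun_sum
    intro i _
    have h1 : AnalyticAt ℂ (fun z => H (m - i) (z ^ m * d z)) 0 := by
      apply AnalyticAt.fun_comp (g := H (m - i)) (f := fun z => z ^ m * d z)
      · have : (0:ℂ) ^ m * d 0 = 0 := by simp [hmpos.ne']
        rw [this]
        exact hH _
      · fun_prop
    have h2 : AnalyticAt ℂ (fun z => z ^ (m - 1 + i) * d z ^ 3) 0 := by fun_prop
    exact analyticAt_const.fun_mul (h2.fun_mul h1)
  · have hcont : Tendsto (fun z => z ^ m * d z) (𝓝 0) (𝓝 0) := by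
      have : ContinuousAt (fun z => z ^ m * d z) 0 := by
        have := hd.continuousAt
        fun_prop
      have h2 := this.tendsto
      simpa [hmpos.ne'] using h2
    have hsmall : ∀ᶠ z in 𝓝 0, ‖z ^ m * d z‖ < 1 := by
      have := hcont.eventually (Metric.ball_mem_nhds (0:ℂ) one_pos)
      filter_upwards [this] with z hz
      simpa using hz
    have hdne : ∀ᶠ z in 𝓝 0, d z ≠ 0 := hd.continuousAt.eventually_ne hd0
    filter_upwards [hsmall, hdne] with z hz hdz hz0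
    set ε := z ^ m * d z with hε
    have hp : 1 + ε ≠ 0 := by
      intro h
      have : ε = -1 := by linear_combination h
      rw [this] at hz
      simp at hz
    have hn : 1 - ε ≠ 0 := by
      intro h
      have : ε = 1 := by linear_combination -h
      rw [this] at hz
      simp at hz
    have e1 : z + z ^ (m + 1) * d z = z * (1 + ε) := by rw [hε]; ring
    have e2 : z - z ^ (m + 1) * d z = z * (1 - ε) := by rw [hε]; ring
    rw [e1, e2]
    have hT : ∀ u : ℂ, u ≠ 0 → B (z * u) / (z * u) ^ m =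
        ∑ i ∈ Finset.range m, (c i / ((i:ℂ) - m)) * (1 / z ^ (m - i)) * (1 / u ^ (m - i)) := by
      intro u hu
      simp only [hB]
      rw [Finset.sum_div]
      apply Finset.sum_congr rfl
      intro i hi
      have hi' : i ≤ m := (Finset.mem_range.mp hi).le
      have h3 : (z * u) ^ m = (z * u) ^ i * (z ^ (m - i) * u ^ (m - i)) := by
        rw [← mul_pow, ← pow_add]
        congr 1
        omega
      rw [h3]
      have h4 : (z * u) ^ i ≠ 0 := pow_ne_zero _ (mul_ne_zero hz0 hu)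
      have h5 : z ^ (m - i) ≠ 0 := pow_ne_zero _ hz0
      have h6 : u ^ (m - i) ≠ 0 := pow_ne_zero _ hu
      field_simp
    rw [hT _ hp, hT _ hn, ← Finset.sum_sub_distrib]
    have h7 : ∀ i ∈ Finset.range m,
        (c i / ((i:ℂ) - m)) * (1 / z ^ (m - i)) * (1 / (1 + ε) ^ (m - i))
          - (c i / ((i:ℂ) - m)) * (1 / z ^ (m - i)) * (1 / (1 - ε) ^ (m - i))
        = 2 * d z * (c i * z ^ i) + z ^ (m + 1) * ((c i / ((i:ℂ) - m)) *
          (z ^ (m - 1 + i) * d z ^ 3 * H (m - i) ε)) := by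
      intro i hi
      have hi' : i < m := Finset.mem_range.mp hi
      rw [← mul_sub, hHe]
      have h8 : ((m - i : ℕ) : ℂ) = -((i:ℂ) - m) := by
        rw [Nat.cast_sub hi'.le]; ring
      rw [h8]
      have h9 : ((i:ℂ) - m) ≠ 0 := by
        intro h
        have : (i:ℂ) = (m:ℂ) := by linear_combination h
        have := Nat.cast_injective this
        omega
      have h10 : z ^ (m - i) ≠ 0 := pow_ne_zero _ hz0
      have h11 : ε = z ^ (m - i) * (z ^ i * d z) := by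
        rw [hε, ← mul_assoc, ← pow_add]
        congr 2
        omega
      have h12 : ε ^ 3 = z ^ (m - i) * (z ^ (m + 1) * (z ^ (m - 1 + i) * d z ^ 3)) := by
        rw [hε]
        have : z ^ (m - i) * (z ^ (m + 1) * (z ^ (m - 1 + i) * d z ^ 3))
            = (z ^ (m - i) * z ^ (m + 1) * z ^ (m - 1 + i)) * d z ^ 3 := by ring
        rw [this, ← pow_add, ← pow_add, mul_pow, ← pow_mul]
        congr 2
        omega
      rw [h12]
      have h13 : -2 * -((i:ℂ) - m) * ε = z ^ (m - i) * (2 * ((i:ℂ) - m) * (z ^ i * d z)) := by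
        conv_lhs => rw [h11]
        ring
      rw [h13]
      field_simp
    rw [Finset.sum_congr rfl h7, Finset.sum_add_distrib, ← Finset.mul_sum, ← Finset.mul_sum]
    have h14 : 2 * d z * (∑ i ∈ Finset.range m, c i * z ^ i) = 1 - 2 * d z * (z ^ (m + 1) * F z) := by
      have h15 := haF' z
      have h16 : 2 * d z * a z = 1 := by
        simp only [ha]
        field_simp
      have h17 : (∑ i ∈ Finset.range m, c i * z ^ i) = a z - z ^ (m + 1) * F z := by
        linear_combination -h15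
      rw [h17]
      linear_combination h16
    rw [h14]
    ring

lemma exists_chi (m : ℕ) (hm : 0 < m) (B : ℂ → ℂ) (hB : AnalyticAt ℂ B 0) (hB0 : B 0 ≠ 0) :
    ∃ χ : ℂ → ℂ, AnalyticAt ℂ χ 0 ∧ χ 0 = 0 ∧ deriv χ 0 ≠ 0 ∧
      ∀ᶠ z in 𝓝 0, χ z ^ m * B z = z ^ m := by
  obtain ⟨c, hc⟩ := IsAlgClosed.exists_pow_nat_eq (1 / B 0) hm
  have hmne : (m:ℂ) ≠ 0 := by exact_mod_cast hm.ne'
  have hc0 : c ≠ 0 := by
    intro h
    rw [h, zero_pow hm.ne'] at hc
    have : 1 / B 0 ≠ 0 := by simpa using hB0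
    exact this hc.symm
  have hk : AnalyticAt ℂ (fun z => B z / B 0) 0 := hB.fun_div analyticAt_const hB0
  have hlog : AnalyticAt ℂ (fun z => Complex.log (B z / B 0)) 0 := by
    apply hk.clog
    rw [div_self hB0]
    exact Complex.one_mem_slitPlane
  have hE : AnalyticAt ℂ (fun z => Complex.exp (-(1 / m) * Complex.log (B z / B 0))) 0 := by
    fun_prop
  refine ⟨fun z => c * z * Complex.exp (-(1 / m) * Complex.log (B z / B 0)), by fun_prop,
    by simp, ?_, ?_⟩
  · have h := ((hasDerivAt_id (0:ℂ)).const_mul c).fun_mul hE.differentiableAt.hasDerivAt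
    have h' := h.deriv
    simp only [id] at h'
    rw [h']
    simp [hB0, hc0]
  · have hne : ∀ᶠ z in 𝓝 (0:ℂ), B z ≠ 0 := hB.continuousAt.eventually_ne hB0
    filter_upwards [hne] with z hz
    have hq : B z / B 0 ≠ 0 := div_ne_zero hz hB0
    have e1 : (c * z * Complex.exp (-(1 / m) * Complex.log (B z / B 0))) ^ m =
        c ^ m * z ^ m * Complex.exp (-(Complex.log (B z / B 0))) := by
      rw [mul_pow, mul_pow, ← Complex.exp_nat_mul]
      congr 2
      field_simp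
    rw [e1, hc, Complex.exp_neg, Complex.exp_log hq]
    field_simp

/-- The reduction of the problem to a parabolic germ in normal form. -/
lemma exists_package (q : ℂ → ℂ) (hq : AnalyticAt ℂ q 0) (h0 : q 0 = 0) (h1 : deriv q 0 = 0)
    (h2 : iteratedDeriv 2 q 0 = 2) (hne : ¬ ∀ᶠ z in 𝓝 0, q (-z) = q z) :
    ∃ (m : ℕ) (κ T G : ℂ → ℂ) (K : ℝ), 0 < m ∧ AnalyticAt ℂ κ 0 ∧ κ 0 = 0 ∧ deriv κ 0 ≠ 0 ∧
      AnalyticAt ℂ T 0 ∧ T 0 = 0 ∧ deriv T 0 = 1 ∧ AnalyticAt ℂ G 0 ∧
      (∀ᶠ x in 𝓝 0, ‖G x‖ ≤ K * ‖x‖ ^ (m + 1)) ∧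
      (∀ᶠ x in 𝓝 0, x ≠ 0 → T x ≠ 0 ∧ 1 / (T x) ^ m = 1 / x ^ m + 1 + G x) ∧
      (∀ᶠ x in 𝓝 0, q (κ x) = q (-κ (T x))) := by
  obtain ⟨δ, hδ, hδ0, hδev, hδne, hqδ⟩ := exists_delta q hq h0 h1 h2 hne
  obtain ⟨m, d, hm, hd, hd0, hdev, hδd⟩ := exists_factor δ hδ hδ0 hδev hδne
  obtain ⟨B, hB, hB0, W, hW, hBW⟩ := exists_theta m hm d hd hd0 hdev
  obtain ⟨χ, hχ, hχ0, hχ1, hχB⟩ := exists_chi m hm.pos B hB hB0
  obtain ⟨κ, hκ, hκ0, hκ1, hκχ, hχκ⟩ := exists_local_inverse χ hχ hχ0 hχ1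
  set D : ℂ → ℂ := fun z => z ^ (m + 1) * d z with hD
  have hDA : AnalyticAt ℂ D 0 := by
    simp only [hD]; fun_prop
  have hD0 : D 0 = 0 := by simp [hD]
  have hDd : HasDerivAt D 0 0 := by
    have h3 := ((hasDerivAt_pow (m + 1) (0:ℂ))).fun_mul hd.differentiableAt.hasDerivAt
    have hmp := hm.pos
    simpa [hm.pos.ne'] using h3
  -- the two maps `z - D z` and `z + D z`
  have hmA : AnalyticAt ℂ (fun z => z - D z) 0 := analyticAt_id.fun_sub hDA
  have hpA : AnalyticAt ℂ (fun z => z + D z) 0 := analyticAt_id.fun_add hDA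
  have hXA : AnalyticAt ℂ (fun z => χ (z - D z)) 0 := by
    apply AnalyticAt.fun_comp (g := χ) (f := fun z => z - D z)
    · simpa [hD0] using hχ
    · exact hmA
  have hYA : AnalyticAt ℂ (fun z => χ (z + D z)) 0 := by
    apply AnalyticAt.fun_comp (g := χ) (f := fun z => z + D z)
    · simpa [hD0] using hχ
    · exact hpA
  have hχd : HasDerivAt χ (deriv χ 0) 0 := hχ.differentiableAt.hasDerivAt
  have hXd : HasDerivAt (fun z => χ (z - D z)) (deriv χ 0) 0 := by
    have h3 : HasDerivAt (fun z => z - D z) (1 - 0) 0 := (hasDerivAt_id (0:ℂ)).fun_sub hDd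
    have h4 : HasDerivAt χ (deriv χ 0) ((fun z => z - D z) 0) := by simpa [hD0] using hχd
    have h5 := h4.comp (0:ℂ) h3
    rw [sub_zero, mul_one] at h5
    exact h5
  have hYd : HasDerivAt (fun z => χ (z + D z)) (deriv χ 0) 0 := by
    have h3 : HasDerivAt (fun z => z + D z) (1 + 0) 0 := (hasDerivAt_id (0:ℂ)).fun_add hDd
    have h4 : HasDerivAt χ (deriv χ 0) ((fun z => z + D z) 0) := by simpa [hD0] using hχd
    have h5 := h4.comp (0:ℂ) h3
    rw [add_zero, mul_one] at h5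
    exact h5
  have hX0 : (fun z => χ (z - D z)) 0 = 0 := by simp [hD0, hχ0]
  obtain ⟨ϖ, hϖ, hϖ0, hϖ1, hϖX, hXϖ⟩ := exists_local_inverse (fun z => χ (z - D z)) hXA hX0
    (by rw [hXd.deriv]; exact hχ1)
  rw [hXd.deriv] at hϖ1
  have hϖt : Tendsto ϖ (𝓝 0) (𝓝 0) := by
    have := hϖ.continuousAt.tendsto
    rwa [hϖ0] at this
  have hmt : Tendsto (fun z => z - D z) (𝓝 0) (𝓝 0) := by
    have := hmA.continuousAt.tendsto
    simpa [hD0] using this
  have hpt : Tendsto (fun z => z + D z) (𝓝 0) (𝓝 0) := by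
    have := hpA.continuousAt.tendsto
    simpa [hD0] using this
  have hκt : Tendsto κ (𝓝 0) (𝓝 0) := by
    have := hκ.continuousAt.tendsto
    rwa [hκ0] at this
  set T : ℂ → ℂ := fun x => χ (ϖ x + D (ϖ x)) with hT
  have hTA : AnalyticAt ℂ T 0 := by
    apply AnalyticAt.fun_comp (g := fun z => χ (z + D z)) (f := ϖ)
    · rw [hϖ0]; exact hYA
    · exact hϖ
  have hT0 : T 0 = 0 := by simp [hT, hϖ0, hD0, hχ0]
  have hT1 : deriv T 0 = 1 := by
    have h4 : HasDerivAt (fun z => χ (z + D z)) (deriv χ 0) (ϖ 0) := by rw [hϖ0]; exact hYd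
    have h5 : HasDerivAt ϖ (deriv χ 0)⁻¹ 0 := by
      have := hϖ.differentiableAt.hasDerivAt
      rwa [hϖ1] at this
    have h6 := h4.comp (0:ℂ) h5
    rw [mul_inv_cancel₀ hχ1] at h6
    exact h6.deriv
  refine ⟨m, κ, T, fun x => (ϖ x) ^ (m + 1) * W (ϖ x), ?_⟩
  have hWϖ : AnalyticAt ℂ (fun x => W (ϖ x)) 0 := by
    apply AnalyticAt.fun_comp (g := W) (f := ϖ)
    · rw [hϖ0]; exact hW
    · exact hϖ
  have hGA : AnalyticAt ℂ (fun x => (ϖ x) ^ (m + 1) * W (ϖ x)) 0 :=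
    (hϖ.fun_pow (m+1)).fun_mul hWϖ
  have hGO : (fun x => (ϖ x) ^ (m + 1) * W (ϖ x)) =O[𝓝 0] (fun x : ℂ => x ^ (m + 1)) := by
    have h3 : ϖ =O[𝓝 0] (fun x : ℂ => x) := by
      have := hϖ.differentiableAt.isBigO_sub
      simpa [hϖ0] using this
    have h4 : (fun x => W (ϖ x)) =O[𝓝 0] (fun _ : ℂ => (1:ℂ)) := by
      exact hWϖ.continuousAt.tendsto.isBigO_one ℂ
    simpa using (h3.pow (m+1)).mul h4
  obtain ⟨K, hK⟩ := hGO.bound
  have hB0' : ∀ᶠ z in 𝓝 0, B z ≠ 0 := hB.continuousAt.eventually_ne hB0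
  have hϖne : ∀ᶠ x in 𝓝 0, x ≠ 0 → ϖ x ≠ 0 := by
    filter_upwards [hXϖ] with x hx hx0 hcon
    apply hx0
    rw [← hx, hcon]
    simp [hD0, hχ0]
  have hdz : ∀ᶠ z in 𝓝 0, ‖z ^ m * d z‖ < 1 := by
    have hcont : Tendsto (fun z => z ^ m * d z) (𝓝 0) (𝓝 0) := by
      have : ContinuousAt (fun z => z ^ m * d z) 0 := by
        have := hd.continuousAt
        fun_prop
      have h2 := this.tendsto
      simpa [hm.pos.ne'] using h2
    have := hcont.eventually (Metric.ball_mem_nhds (0:ℂ) one_pos)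
    filter_upwards [this] with z hz
    simpa using hz
  refine ⟨K, hm.pos, hκ, hκ0, ?_, hTA, hT0, hT1, hGA, ?_, ?_, ?_⟩
  · rw [hκ1]; exact inv_ne_zero hχ1
  · filter_upwards [hK] with x hx
    simpa using hx
  · filter_upwards [hϖne, hϖt.eventually hBW, hϖt.eventually (hmt.eventually hχB),
      hϖt.eventually (hpt.eventually hχB), hϖt.eventually (hmt.eventually hB0'),
      hϖt.eventually (hpt.eventually hB0'), hXϖ, hϖt.eventually hdz] with x a1 a2 a3 a4 a5 a6 a7 a8 hx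
    have hz := a1 hx
    have b1 : ϖ x + D (ϖ x) ≠ 0 := by
      have : ϖ x + D (ϖ x) = ϖ x * (1 + (ϖ x) ^ m * d (ϖ x)) := by simp only [hD]; ring
      rw [this]
      apply mul_ne_zero hz
      intro h
      have h3 : (ϖ x) ^ m * d (ϖ x) = -1 := by linear_combination h
      rw [h3] at a8
      simp at a8
    have b2 : ϖ x - D (ϖ x) ≠ 0 := by
      intro h
      apply hx
      rw [← a7, h, hχ0]
    have a2' := a2 hz
    have c1 : χ (ϖ x + D (ϖ x)) ≠ 0 := by
      intro h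
      rw [h, zero_pow hm.pos.ne', zero_mul] at a4
      exact pow_ne_zero m b1 a4.symm
    refine ⟨c1, ?_⟩
    have c2 : B (ϖ x + D (ϖ x)) / (ϖ x + D (ϖ x)) ^ m = 1 / (T x) ^ m := by
      rw [← a4]
      simp only [hT]
      field_simp
    have c3 : B (ϖ x - D (ϖ x)) / (ϖ x - D (ϖ x)) ^ m = 1 / x ^ m := by
      rw [← a3, a7]
      field_simp
    have c4 : B (ϖ x + D (ϖ x)) / (ϖ x + D (ϖ x)) ^ m - B (ϖ x - D (ϖ x)) / (ϖ x - D (ϖ x)) ^ m - 1
        = (ϖ x) ^ (m + 1) * W (ϖ x) := a2'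
    rw [c2, c3] at c4
    linear_combination c4
  · have hTt : Tendsto T (𝓝 0) (𝓝 0) := by
      have := hTA.continuousAt.tendsto
      rwa [hT0] at this
    have hδD : ∀ᶠ z in 𝓝 0, δ z = D z := hδd
    filter_upwards [hXϖ, hϖt.eventually (hmt.eventually hκχ), hϖt.eventually (hpt.eventually hκχ),
      hϖt.eventually hqδ, hϖt.eventually hδD] with x a1 a2 a3 a4 a5
    have b1 : κ x = ϖ x - D (ϖ x) := by
      rw [a1] at a2; exact a2
    have b2 : κ (T x) = ϖ x + D (ϖ x) := a3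
    rw [b1, b2, ← a5, a4]
    congr 1
    ring

lemma isOpen_halfplane (C : ℝ) : IsOpen {s : ℂ | C < s.re} :=
  isOpen_lt continuous_const Complex.continuous_re

/-- Abstract fixed point lemma. -/
lemma exists_fixed_aux (g : ℂ → ℂ) (C : ℝ) (b : ℕ → ℝ) (hb0 : ∀ k, 0 ≤ b k) (hb : Summable b)
    (hbs : ∑' k, b k ≤ 1 / 2)
    (hg : DifferentiableOn ℂ g {v : ℂ | C - 1 < v.re})
    (hg1 : ∀ (k : ℕ) (w : ℂ), C + k - 1 < w.re → ‖g w‖ ≤ b k)
    (hg2 : ∀ (k : ℕ) (w₁ w₂ : ℂ), C + k - 1 < w₁.re → C + k - 1 < w₂.re →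
      ‖g w₁ - g w₂‖ ≤ b k * ‖w₁ - w₂‖) :
    ∃ h : ℂ → ℂ, DifferentiableOn ℂ h {s : ℂ | C < s.re} ∧ (∀ s : ℂ, C < s.re → ‖h s‖ ≤ 1) ∧
      ∀ s : ℂ, C < s.re → h (s + 1) - h s = g (s + h s) := by
  set U : Set ℂ := {s : ℂ | C < s.re} with hU
  have hUo : IsOpen U := isOpen_halfplane C
  have hre : ∀ (h : ℂ → ℂ) (s : ℂ) (k : ℕ), C < s.re → ‖h (s + k)‖ ≤ 1 →
      C + k - 1 < (s + k + h (s + k)).re := by
    intro h s k hs hh
    have h1 := Complex.abs_re_le_norm (h (s + k))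
    have h2 := abs_le.mp (h1.trans hh)
    simp only [Complex.add_re, Complex.natCast_re]
    linarith [h2.1]
  have hsk : ∀ (s : ℂ) (k : ℕ), C < s.re → C < (s + k).re := by
    intro s k hs
    simp only [Complex.add_re, Complex.natCast_re]
    have : (0:ℝ) ≤ k := Nat.cast_nonneg k
    linarith
  set Φ : (ℂ → ℂ) → ℂ → ℂ := fun h s => -∑' k : ℕ, g (s + k + h (s + k)) with hΦ
  -- properties of admissible functions
  have hterm : ∀ h : ℂ → ℂ, (∀ s, C < s.re → ‖h s‖ ≤ 1) → ∀ s, C < s.re → ∀ k : ℕ,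
      ‖g (s + k + h (s + k))‖ ≤ b k := by
    intro h hh s hs k
    exact hg1 k _ (hre h s k hs (hh _ (hsk s k hs)))
  have hsum : ∀ h : ℂ → ℂ, (∀ s, C < s.re → ‖h s‖ ≤ 1) → ∀ s, C < s.re →
      Summable (fun k : ℕ => g (s + k + h (s + k))) := by
    intro h hh s hs
    exact Summable.of_norm_bounded hb (hterm h hh s hs)
  have hΦb : ∀ h : ℂ → ℂ, (∀ s, C < s.re → ‖h s‖ ≤ 1) → ∀ s, C < s.re → ‖Φ h s‖ ≤ 1 / 2 := by
    intro h hh s hs
    simp only [hΦ, norm_neg]
    exact (tsum_of_norm_bounded hb.hasSum (hterm h hh s hs)).trans hbs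
  have hΦd : ∀ h : ℂ → ℂ, DifferentiableOn ℂ h U → (∀ s, C < s.re → ‖h s‖ ≤ 1) →
      DifferentiableOn ℂ (Φ h) U := by
    intro h hd hh
    have : DifferentiableOn ℂ (fun s => ∑' k : ℕ, g (s + k + h (s + k))) U := by
      apply Complex.differentiableOn_tsum_of_summable_norm hb _ hUo
      · intro k s hs
        exact hterm h hh s hs k
      · intro k
        apply DifferentiableOn.fun_comp (t := {v : ℂ | C - 1 < v.re}) hg
        · apply DifferentiableOn.fun_add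
          · fun_prop
          · apply DifferentiableOn.fun_comp (t := U) hd
            · fun_prop
            · intro s hs
              exact hsk s k hs
        · intro s hs
          have h3 := hre h s k hs (hh _ (hsk s k hs))
          have : (0:ℝ) ≤ k := Nat.cast_nonneg k
          show C - 1 < _
          linarith
    exact this.fun_neg
  have hΦL : ∀ h₁ h₂ : ℂ → ℂ, (∀ s, C < s.re → ‖h₁ s‖ ≤ 1) → (∀ s, C < s.re → ‖h₂ s‖ ≤ 1) →
      ∀ M : ℝ, 0 ≤ M → (∀ s, C < s.re → ‖h₁ s - h₂ s‖ ≤ M) → ∀ s, C < s.re →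
        ‖Φ h₁ s - Φ h₂ s‖ ≤ M / 2 := by
    intro h₁ h₂ hh₁ hh₂ M hM hM' s hs
    have e1 : Φ h₁ s - Φ h₂ s = -∑' k : ℕ, (g (s + k + h₁ (s + k)) - g (s + k + h₂ (s + k))) := by
      simp only [hΦ]
      rw [(hsum h₁ hh₁ s hs).tsum_sub (hsum h₂ hh₂ s hs)]
      ring
    rw [e1, norm_neg]
    have e2 : ∀ k : ℕ, ‖g (s + k + h₁ (s + k)) - g (s + k + h₂ (s + k))‖ ≤ b k * M := by
      intro k
      have hk := hsk s k hs
      have e3 := hg2 k _ _ (hre h₁ s k hs (hh₁ _ hk)) (hre h₂ s k hs (hh₂ _ hk))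
      refine e3.trans ?_
      apply mul_le_mul_of_nonneg_left _ (hb0 k)
      have : s + k + h₁ (s + k) - (s + k + h₂ (s + k)) = h₁ (s + k) - h₂ (s + k) := by ring
      rw [this]
      exact hM' _ hk
    have e4 := tsum_of_norm_bounded (hb.mul_right M).hasSum e2
    rw [tsum_mul_right] at e4
    refine e4.trans ?_
    nlinarith
  -- iteration
  set H : ℕ → ℂ → ℂ := fun n => Φ^[n] (fun _ => 0) with hH
  have hHs : ∀ n, H (n + 1) = Φ (H n) := by
    intro n
    simp only [hH, Function.iterate_succ_apply']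
  have hH0 : H 0 = fun _ => 0 := rfl
  have hHadm : ∀ n, DifferentiableOn ℂ (H n) U ∧ ∀ s, C < s.re → ‖H n s‖ ≤ 1 := by
    intro n
    induction n with
    | zero =>
      rw [hH0]
      exact ⟨by fun_prop, by intro s _; simp⟩
    | succ n ih =>
      rw [hHs]
      exact ⟨hΦd _ ih.1 ih.2, fun s hs => (hΦb _ ih.2 s hs).trans (by norm_num)⟩
  have hdiff : ∀ n, ∀ s, C < s.re → ‖H (n + 1) s - H n s‖ ≤ (1 / 2) ^ (n + 1) := by
    intro n
    induction n with
    | zero =>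
      intro s hs
      rw [hHs, hH0]
      simp only [sub_zero, zero_add, pow_one]
      exact hΦb (fun _ => 0) (by intro s _; simp) s hs
    | succ n ih =>
      intro s hs
      have := hΦL (H (n + 1)) (H n) (hHadm _).2 (hHadm _).2 ((1 / 2) ^ (n + 1)) (by positivity) ih s hs
      rw [← hHs, ← hHs] at this
      refine this.trans (le_of_eq ?_)
      rw [pow_succ (1 / 2 : ℝ) (n + 1)]
      ring
  have hgeo : Summable (fun n : ℕ => (1 / 2 : ℝ) ^ (n + 1)) := by
    have := (summable_geometric_of_lt_one (by norm_num : (0:ℝ) ≤ 1 / 2) (by norm_num)).mul_left (1/2)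
    refine this.congr ?_
    intro n
    rw [pow_succ]
    ring
  set h : ℂ → ℂ := fun s => ∑' n : ℕ, (H (n + 1) s - H n s) with hh
  have hhd : DifferentiableOn ℂ h U := by
    apply Complex.differentiableOn_tsum_of_summable_norm hgeo _ hUo
    · intro n s hs
      exact hdiff n s hs
    · intro n
      exact ((hHadm (n + 1)).1).fun_sub (hHadm n).1
  have hlim : ∀ s, C < s.re → Tendsto (fun n => H n s) atTop (𝓝 (h s)) := by
    intro s hs
    have h1 : Summable (fun n : ℕ => H (n + 1) s - H n s) :=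
      Summable.of_norm_bounded hgeo (fun n => hdiff n s hs)
    have h2 := h1.hasSum.tendsto_sum_nat
    refine h2.congr ?_
    intro n
    rw [Finset.sum_range_sub (fun n => H n s), hH0]
    simp
  have hhb : ∀ s, C < s.re → ‖h s‖ ≤ 1 := by
    intro s hs
    exact le_of_tendsto (hlim s hs).norm (Eventually.of_forall fun n => (hHadm n).2 s hs)
  -- uniform convergence rate
  have hrate : ∀ n, ∀ s, C < s.re → ‖h s - H n s‖ ≤ (1 / 2) ^ n := by
    intro n s hs
    have h1 : ∀ m, ‖H (n + m) s - H n s‖ ≤ (1 / 2) ^ n * (1 - (1 / 2) ^ m) := by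
      intro m
      induction m with
      | zero => simp
      | succ m ih =>
        have h3 := hdiff (n + m) s hs
        have h4 : H (n + (m + 1)) s - H n s = (H (n + m + 1) s - H (n + m) s) + (H (n + m) s - H n s) := by
          rw [← add_assoc]; ring
        rw [h4]
        refine (norm_add_le _ _).trans ?_
        refine (add_le_add h3 ih).trans (le_of_eq ?_)
        rw [pow_succ, pow_add, pow_succ]
        ring
    have h2 : ∀ m, ‖H (n + m) s - H n s‖ ≤ (1 / 2) ^ n := by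
      intro m
      refine (h1 m).trans ?_
      have : (0:ℝ) ≤ (1/2) ^ n * (1/2) ^ m := by positivity
      nlinarith
    have h3 : Tendsto (fun m => H (n + m) s) atTop (𝓝 (h s)) := by
      have := (tendsto_add_atTop_iff_nat n).mpr (hlim s hs)
      refine this.congr ?_
      intro m
      rw [add_comm]
    exact le_of_tendsto ((h3.sub_const _).norm) (Eventually.of_forall h2)
  have hfix : ∀ s, C < s.re → Φ h s = h s := by
    intro s hs
    have h1 : Tendsto (fun n => H (n + 1) s) atTop (𝓝 (h s)) :=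
      (tendsto_add_atTop_iff_nat 1).mpr (hlim s hs)
    have h2 : Tendsto (fun n => H (n + 1) s) atTop (𝓝 (Φ h s)) := by
      rw [tendsto_iff_norm_sub_tendsto_zero]
      have h3 : ∀ n, ‖H (n + 1) s - Φ h s‖ ≤ (1 / 2) ^ n := by
        intro n
        rw [hHs, norm_sub_rev]
        refine (hΦL h (H n) hhb (hHadm n).2 _ (by positivity) (hrate n) s hs).trans ?_
        have : (0:ℝ) ≤ (1/2) ^ n := by positivity
        linarith
      exact squeeze_zero (fun n => norm_nonneg _) h3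
        (tendsto_pow_atTop_nhds_zero_of_lt_one (by norm_num) (by norm_num))
    exact tendsto_nhds_unique h2 h1
  refine ⟨h, hhd, hhb, ?_⟩
  intro s hs
  have hs1 : C < (s + 1).re := by
    have := hsk s 1 hs
    simpa using this
  have f1 := hfix s hs
  have f2 := hfix (s + 1) hs1
  simp only [hΦ] at f1 f2
  have e1 := (hsum h hhb s hs).tsum_eq_zero_add
  have e2 : ∀ k : ℕ, g (s + 1 + k + h (s + 1 + k)) = g (s + (k + 1 : ℕ) + h (s + (k + 1 : ℕ))) := by
    intro k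
    have : s + 1 + k = s + ((k + 1 : ℕ) : ℂ) := by push_cast; ring
    rw [this]
  simp_rw [e2] at f2
  rw [e1] at f1
  simp only [Nat.cast_zero, add_zero] at f1
  linear_combination f1 - f2

/-- Half-plane fixed point lemma for a perturbation of the unit translation. -/
lemma exists_fixed (g : ℂ → ℂ) (C₀ K p : ℝ) (hC₀ : 1 ≤ C₀) (hK : 0 ≤ K) (hp : 1 < p)
    (hg : DifferentiableOn ℂ g {v : ℂ | C₀ < v.re})
    (hgb : ∀ v : ℂ, C₀ < v.re → ‖g v‖ ≤ K * (1 / v.re ^ p)) :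
    ∃ (C : ℝ) (h : ℂ → ℂ), C₀ + 1 ≤ C ∧ DifferentiableOn ℂ h {s : ℂ | C < s.re} ∧
      (∀ s : ℂ, C < s.re → ‖h s‖ ≤ 1) ∧ ∀ s : ℂ, C < s.re → h (s + 1) - h s = g (s + h s) := by
  set b : ℕ → ℝ := fun n => K * (1 / |(n:ℝ) + C₀| ^ p) with hb
  have hbs : Summable b := ((Real.summable_one_div_nat_add_rpow C₀ p).mpr hp).mul_left K
  have hb0 : ∀ k, 0 ≤ b k := by
    intro k
    simp only [hb]
    positivity
  have ht := tendsto_sum_nat_add b
  have hev : ∀ᶠ N in atTop, ∑' k, b (k + N) < 1 / 2 :=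
    ht.eventually (gt_mem_nhds (by norm_num))
  obtain ⟨N, hN⟩ := hev.exists
  have hbN : Summable (fun k => b (k + N)) := (summable_nat_add_iff N).mpr hbs
  set C : ℝ := C₀ + 2 + N with hC
  have hN0 : (0:ℝ) ≤ N := Nat.cast_nonneg N
  have hmono : ∀ (k : ℕ) (x : ℝ), C + k - 2 < x → K * (1 / x ^ p) ≤ b (k + N) := by
    intro k x hx
    have hk0 : (0:ℝ) ≤ k := Nat.cast_nonneg k
    simp only [hb]
    push_cast
    have h1 : (0:ℝ) < (k:ℝ) + N + C₀ := by linarith
    rw [abs_of_pos h1]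
    apply mul_le_mul_of_nonneg_left _ hK
    apply one_div_le_one_div_of_le
    · positivity
    · apply Real.rpow_le_rpow h1.le _ (by linarith)
      rw [hC] at hx
      linarith
  have hg1' : ∀ (k : ℕ) (w : ℂ), C + k - 2 < w.re → ‖g w‖ ≤ b (k + N) := by
    intro k w hw
    have hk0 : (0:ℝ) ≤ k := Nat.cast_nonneg k
    refine (hgb w ?_).trans (hmono k w.re hw)
    rw [hC] at hw
    linarith
  have hg1 : ∀ (k : ℕ) (w : ℂ), C + k - 1 < w.re → ‖g w‖ ≤ b (k + N) := by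
    intro k w hw
    exact hg1' k w (by linarith)
  have hgd : ∀ (k : ℕ) (w : ℂ), C + k - 1 < w.re → ‖deriv g w‖ ≤ b (k + N) := by
    intro k w hw
    have hk0 : (0:ℝ) ≤ k := Nat.cast_nonneg k
    have hsub : Metric.closedBall w 1 ⊆ {v : ℂ | C + k - 2 < v.re} := by
      intro v hv
      have h1 : ‖v - w‖ ≤ 1 := by simpa [dist_eq_norm] using hv
      have h2 := Complex.abs_re_le_norm (v - w)
      have h3 := abs_le.mp (h2.trans h1)
      have h4 : (v - w).re = v.re - w.re := Complex.sub_re _ _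
      rw [h4] at h3
      show C + k - 2 < v.re
      linarith [h3.1]
    have hsub2 : {v : ℂ | C + k - 2 < v.re} ⊆ {v : ℂ | C₀ < v.re} := by
      intro v hv
      have hv' : C + k - 2 < v.re := hv
      show C₀ < v.re
      rw [hC] at hv'
      linarith
    have hd : DiffContOnCl ℂ g (Metric.ball w 1) := by
      apply DifferentiableOn.diffContOnCl
      rw [closure_ball w one_ne_zero]
      exact hg.mono (hsub.trans hsub2)
    have := Complex.norm_deriv_le_of_forall_mem_sphere_norm_le (C := b (k + N)) one_pos hd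
      (fun z hz => hg1' k z (hsub (Metric.sphere_subset_closedBall hz)))
    simpa using this
  have hg2 : ∀ (k : ℕ) (w₁ w₂ : ℂ), C + k - 1 < w₁.re → C + k - 1 < w₂.re →
      ‖g w₁ - g w₂‖ ≤ b (k + N) * ‖w₁ - w₂‖ := by
    intro k w₁ w₂ h1 h2
    have hk0 : (0:ℝ) ≤ k := Nat.cast_nonneg k
    have hconv : Convex ℝ {v : ℂ | C + k - 1 < v.re} := convex_halfSpace_re_gt _
    refine hconv.norm_image_sub_le_of_norm_deriv_le (𝕜 := ℂ) (f := g) ?_ ?_ h2 h1
    · intro x hx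
      apply hg.differentiableAt
      apply (isOpen_halfplane C₀).mem_nhds
      have hx' : C + k - 1 < x.re := hx
      show C₀ < x.re
      rw [hC] at hx'
      linarith
    · intro x hx
      exact hgd k x hx
  obtain ⟨h, h1, h2, h3⟩ := exists_fixed_aux g C (fun k => b (k + N)) (fun k => hb0 _) hbN hN.le
    (hg.mono (by
      intro v hv
      have hv' : C - 1 < v.re := hv
      show C₀ < v.re
      rw [hC] at hv'
      linarith)) hg1 hg2
  refine ⟨C, h, ?_, h1, h2, h3⟩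
  rw [hC]; linarith

/-- `v ↦ v^{-1/m}` on the right half-plane. -/
noncomputable def xx (m : ℕ) (v : ℂ) : ℂ := Complex.exp (-(1 / m) * Complex.log v)

lemma xx_ne_zero (m : ℕ) (v : ℂ) : xx m v ≠ 0 := Complex.exp_ne_zero _

lemma xx_pow (m : ℕ) (hm : 0 < m) (v : ℂ) (hv : v ≠ 0) : xx m v ^ m = 1 / v := by
  have hmne : (m:ℂ) ≠ 0 := by exact_mod_cast hm.ne'
  rw [xx, ← Complex.exp_nat_mul]
  have : (m:ℂ) * (-(1 / m) * Complex.log v) = -Complex.log v := by field_simp
  rw [this, Complex.exp_neg, Complex.exp_log hv, one_div]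

lemma norm_xx (m : ℕ) (v : ℂ) (hv : v ≠ 0) : ‖xx m v‖ = ‖v‖ ^ (-(1 / (m:ℝ))) := by
  have hv' : 0 < ‖v‖ := norm_pos_iff.mpr hv
  rw [xx, Complex.norm_exp, Real.rpow_def_of_pos hv']
  congr 1
  have : (-(1 / (m:ℂ)) * Complex.log v) = ((-(1 / (m:ℝ)) : ℝ) : ℂ) * Complex.log v := by
    push_cast; ring
  rw [this, Complex.re_ofReal_mul, Complex.log_re]
  ring

lemma norm_xx_lt (m : ℕ) (hm : 0 < m) (v : ℂ) (ρ : ℝ) (hρ : 0 < ρ) (hv : 1 / ρ ^ m < ‖v‖) :
    ‖xx m v‖ < ρ := by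
  have h1 : 0 < 1 / ρ ^ m := by positivity
  have hv' : 0 < ‖v‖ := h1.trans hv
  have hv0 : v ≠ 0 := norm_pos_iff.mp hv'
  have h2 : ‖xx m v‖ ^ m < ρ ^ m := by
    rw [← norm_pow, xx_pow m hm v hv0, norm_div, norm_one]
    rw [div_lt_iff₀ (by positivity)] at hv
    rw [div_lt_iff₀ hv']
    linarith
  exact lt_of_pow_lt_pow_left₀ m hρ.le h2

lemma differentiableAt_xx (m : ℕ) (v : ℂ) (hv : 0 < v.re) : DifferentiableAt ℂ (xx m) v := by
  have h : v ∈ Complex.slitPlane := Or.inl hv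
  have := Complex.differentiableAt_log h
  unfold xx
  fun_prop

lemma eventually_root_unity (m : ℕ) (hm : 0 < m) : ∀ᶠ t in 𝓝 (1:ℂ), t ^ m = 1 → t = 1 := by
  have hfin : ({t : ℂ | t ^ m = 1 ∧ t ≠ 1}).Finite := by
    have h1 : (Polynomial.nthRootsFinset m (1:ℂ) : Set ℂ).Finite := Finset.finite_toSet _
    apply h1.subset
    intro t ht
    simp only [Finset.mem_coe]
    rw [Polynomial.mem_nthRootsFinset hm]
    exact ht.1
  have : ({t : ℂ | t ^ m = 1 ∧ t ≠ 1})ᶜ ∈ 𝓝 (1:ℂ) := by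
    apply hfin.isClosed.isOpen_compl.mem_nhds
    intro h
    exact h.2 rfl
  filter_upwards [this] with t ht h1
  by_contra h2
  exact ht ⟨h1, h2⟩

/-- Difference of logarithms in a far half-plane. -/
lemma norm_log_sub_le (C : ℝ) (hC : 0 < C) (v w : ℂ) (hv : C < v.re) (hw : C < w.re) :
    ‖Complex.log v - Complex.log w‖ ≤ C⁻¹ * ‖v - w‖ := by
  have hconv : Convex ℝ {v : ℂ | C < v.re} := convex_halfSpace_re_gt _
  refine hconv.norm_image_sub_le_of_norm_deriv_le (𝕜 := ℂ) (f := Complex.log) ?_ ?_ hw hv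
  · intro x hx
    have hx' : C < x.re := hx
    exact Complex.differentiableAt_log (Or.inl (hC.trans hx'))
  · intro x hx
    have hx' : C < x.re := hx
    rw [(Complex.hasDerivAt_log (Or.inl (hC.trans hx'))).deriv, norm_inv]
    apply inv_anti₀ hC
    exact hx'.le.trans (Complex.re_le_norm x)

/-- The inverse Fatou coordinate. -/
lemma exists_psi (q : ℂ → ℂ) (hq : AnalyticAt ℂ q 0) (h0 : q 0 = 0) (h1 : deriv q 0 = 0)
    (h2 : iteratedDeriv 2 q 0 = 2) (hne : ¬ ∀ᶠ z in 𝓝 0, q (-z) = q z) (r₀ : ℝ) (hr₀ : 0 < r₀) :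
    ∃ (C : ℝ) (Ψ : ℂ → ℂ), DifferentiableOn ℂ Ψ {s : ℂ | C < s.re} ∧
      (∀ s : ℂ, C < s.re → Ψ s ≠ 0 ∧ ‖Ψ s‖ < r₀) ∧
      (∀ ε > 0, ∃ M : ℝ, ∀ s : ℂ, C < s.re → M ≤ ‖s‖ → ‖Ψ s‖ < ε) ∧
      ∀ s : ℂ, C < s.re → q (Ψ s) = q (-Ψ (s + 1)) := by
  obtain ⟨m, κ, T, G, K, hm, hκ, hκ0, hκ1, hT, hT0, hT1, hG, hGK, hTG, hqT⟩ :=
    exists_package q hq h0 h1 h2 hne
  have hmR : (0:ℝ) < m := by exact_mod_cast hm
  -- the neighbourhood on which roots of unity are trivial
  have hmul : Tendsto (fun p : ℂ × ℂ => p.1 * p.2) (𝓝 1 ×ˢ 𝓝 1) (𝓝 1) := by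
    have : Tendsto (fun p : ℂ × ℂ => p.1 * p.2) (𝓝 ((1:ℂ), (1:ℂ))) (𝓝 (1 * 1)) :=
      continuous_mul.tendsto _
    rwa [nhds_prod_eq, one_mul] at this
  have hpair := hmul.eventually (eventually_root_unity m hm)
  rw [eventually_prod_iff] at hpair
  obtain ⟨pa, hpa, pb, hpb, hpab⟩ := hpair
  -- `T x / x → 1`
  have hTx : ∀ᶠ x in 𝓝[≠] (0:ℂ), pa (T x / x) := by
    have hd : HasDerivAt T 1 0 := by
      have := hT.differentiableAt.hasDerivAt
      rwa [hT1] at this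
    have h3 := hd.tendsto_slope_zero
    have h4 : Tendsto (fun x => T x / x) (𝓝[≠] (0:ℂ)) (𝓝 1) := by
      refine h3.congr ?_
      intro t
      simp only [zero_add, hT0, sub_zero, smul_eq_mul]
      rw [div_eq_inv_mul]
    exact h4.eventually hpa
  have hTx' : ∀ᶠ x in 𝓝 (0:ℂ), x ≠ 0 → pa (T x / x) := by
    rw [eventually_nhdsWithin_iff] at hTx
    exact hTx
  -- `exp (w / m)` is close to one for small `w`
  have hexp : ∀ᶠ w in 𝓝 (0:ℂ), pb (Complex.exp ((1 / m) * w)) := by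
    have hc : Tendsto (fun w : ℂ => Complex.exp ((1 / m) * w)) (𝓝 0) (𝓝 1) := by
      have : Continuous (fun w : ℂ => Complex.exp ((1 / m) * w)) := by fun_prop
      have := this.tendsto 0
      simpa using this
    exact hc.eventually hpb
  obtain ⟨η, hη, hηb⟩ := Metric.eventually_nhds_iff.mp hexp
  -- nonvanishing of κ
  obtain ⟨l, -, hl0, -, hlκ, -⟩ := exists_local_inverse κ hκ hκ0 hκ1
  have hκne : ∀ᶠ x in 𝓝 (0:ℂ), x ≠ 0 → κ x ≠ 0 := by
    filter_upwards [hlκ] with x hx hx0 hcon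
    rw [hcon, hl0] at hx
    exact hx0 hx.symm
  have hκsmall : ∀ ε > 0, ∀ᶠ x in 𝓝 (0:ℂ), ‖κ x‖ < ε := by
    intro ε hε
    have h3 := hκ.continuousAt.tendsto
    rw [hκ0] at h3
    filter_upwards [h3.eventually (Metric.ball_mem_nhds (0:ℂ) hε)] with x hx
    simpa using hx
  have hall := (hκ.eventually_analyticAt).and ((hG.eventually_analyticAt).and (hGK.and (hTG.and
    (hqT.and (hκne.and ((hκsmall r₀ hr₀).and hTx'))))))
  obtain ⟨ρ, hρ, hρall⟩ := Metric.eventually_nhds_iff.mp hall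
  have hρ' : ∀ x : ℂ, ‖x‖ < ρ → AnalyticAt ℂ κ x ∧ AnalyticAt ℂ G x ∧ ‖G x‖ ≤ K * ‖x‖ ^ (m + 1) ∧
      (x ≠ 0 → T x ≠ 0 ∧ 1 / (T x) ^ m = 1 / x ^ m + 1 + G x) ∧ q (κ x) = q (-κ (T x)) ∧
      (x ≠ 0 → κ x ≠ 0) ∧ ‖κ x‖ < r₀ ∧ (x ≠ 0 → pa (T x / x)) := by
    intro x hx
    have : dist x 0 < ρ := by simpa using hx
    exact hρall this
  -- choice of `C₀`
  obtain ⟨C₀, hC1, hC2, hC3⟩ : ∃ C₀ : ℝ, 1 ≤ C₀ ∧ 1 / ρ ^ m ≤ C₀ ∧ 3 / η < C₀ := by
    refine ⟨max 1 (max (1 / ρ ^ m) (3 / η + 1)), le_max_left _ _, ?_, ?_⟩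
    · exact (le_max_left _ _).trans (le_max_right _ _)
    · have := (le_max_right (1 / ρ ^ m) (3 / η + 1)).trans (le_max_right 1 _)
      linarith
  have hC0pos : 0 < C₀ := by linarith
  have hxsmall : ∀ v : ℂ, C₀ < v.re → ‖xx m v‖ < ρ := by
    intro v hv
    apply norm_xx_lt m hm v ρ hρ
    exact (hC2.trans_lt hv).trans_le (Complex.re_le_norm v)
  have hgd : DifferentiableOn ℂ (fun v => G (xx m v)) {v : ℂ | C₀ < v.re} := by
    intro v hv
    have hv' : C₀ < v.re := hv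
    apply DifferentiableAt.differentiableWithinAt
    apply DifferentiableAt.fun_comp' (g := G) (f := xx m)
    · exact (hρ' _ (hxsmall v hv')).2.1.differentiableAt
    · exact differentiableAt_xx m v (hC0pos.trans hv')
  have hgb : ∀ v : ℂ, C₀ < v.re → ‖G (xx m v)‖ ≤ |K| * (1 / v.re ^ (1 + 1 / (m:ℝ))) := by
    intro v hv
    have hvre : 0 < v.re := hC0pos.trans hv
    have hv0 : v ≠ 0 := by
      intro h
      rw [h] at hvre
      simp at hvre
    have hvn : 0 < ‖v‖ := norm_pos_iff.mpr hv0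
    refine ((hρ' _ (hxsmall v hv)).2.2.1).trans ?_
    have e1 : ‖xx m v‖ ^ (m + 1) = 1 / ‖v‖ ^ (1 + 1 / (m:ℝ)) := by
      rw [norm_xx m v hv0, ← Real.rpow_natCast, ← Real.rpow_mul hvn.le, one_div (‖v‖ ^ _),
        ← Real.rpow_neg hvn.le]
      congr 1
      push_cast
      field_simp
    rw [e1]
    have e2 : 1 / ‖v‖ ^ (1 + 1 / (m:ℝ)) ≤ 1 / v.re ^ (1 + 1 / (m:ℝ)) := by
      apply one_div_le_one_div_of_le
      · positivity
      · exact Real.rpow_le_rpow hvre.le (Complex.re_le_norm v) (by positivity)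
    have e3 : 0 ≤ 1 / ‖v‖ ^ (1 + 1 / (m:ℝ)) := by positivity
    calc K * (1 / ‖v‖ ^ (1 + 1 / (m:ℝ))) ≤ |K| * (1 / ‖v‖ ^ (1 + 1 / (m:ℝ))) :=
          mul_le_mul_of_nonneg_right (le_abs_self K) e3
      _ ≤ |K| * (1 / v.re ^ (1 + 1 / (m:ℝ))) := mul_le_mul_of_nonneg_left e2 (abs_nonneg K)
  obtain ⟨C, h, hCC, hhd, hhb, hhe⟩ := exists_fixed (fun v => G (xx m v)) C₀ |K| (1 + 1 / (m:ℝ))
    hC1 (abs_nonneg K) (by
      have : 0 < 1 / (m:ℝ) := by positivity
      linarith) hgd hgb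
  have hvre : ∀ s : ℂ, C < s.re → C₀ < (s + h s).re := by
    intro s hs
    have h3 := abs_le.mp ((Complex.abs_re_le_norm (h s)).trans (hhb s hs))
    simp only [Complex.add_re]
    linarith [h3.1]
  have hs1 : ∀ s : ℂ, C < s.re → C < (s + 1).re := by
    intro s hs
    simp only [Complex.add_re, Complex.one_re]
    linarith
  -- the key relation
  have hkey : ∀ s : ℂ, C < s.re → T (xx m (s + h s)) = xx m (s + 1 + h (s + 1)) := by
    intro s hs
    set v := s + h s with hv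
    set w := s + 1 + h (s + 1) with hw
    have hvr : C₀ < v.re := hvre s hs
    have hwr : C₀ < w.re := hvre (s + 1) (hs1 s hs)
    have hv0 : v ≠ 0 := by
      intro h
      rw [h] at hvr
      simp at hvr
      linarith
    have hw0 : w ≠ 0 := by
      intro h
      rw [h] at hwr
      simp at hwr
      linarith
    have hwv : w = v + 1 + G (xx m v) := by
      have := hhe s hs
      simp only [← hv] at this
      rw [hw, hv]
      linear_combination this
    have hx0 := xx_ne_zero m v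
    have hy0 := xx_ne_zero m w
    obtain ⟨-, -, -, a4, -, -, -, a8⟩ := hρ' _ (hxsmall v hvr)
    obtain ⟨b1, b2⟩ := a4 hx0
    have b3 := a8 hx0
    rw [xx_pow m hm v hv0, one_div_one_div, ← hwv] at b2
    have b4 : (T (xx m v)) ^ m = 1 / w := by
      rw [← b2, one_div_one_div]
    -- ratio
    have c1 : (T (xx m v) / xx m v * (xx m v / xx m w)) ^ m = 1 := by
      rw [div_mul_div_cancel₀ hx0, div_pow, b4, xx_pow m hm w hw0]
      field_simp
    have c2 : xx m v / xx m w = Complex.exp ((1 / m) * (Complex.log w - Complex.log v)) := by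
      rw [xx, xx, ← Complex.exp_sub]
      congr 1
      ring
    have c3 : ‖Complex.log w - Complex.log v‖ < η := by
      refine (norm_log_sub_le C₀ hC0pos w v hwr hvr).trans_lt ?_
      have d1 : ‖w - v‖ ≤ 3 := by
        have : w - v = 1 + h (s + 1) - h s := by rw [hw, hv]; ring
        rw [this]
        refine (norm_sub_le _ _).trans ?_
        have d2 := norm_add_le (1:ℂ) (h (s + 1))
        have d3 := hhb s hs
        have d4 := hhb (s + 1) (hs1 s hs)
        rw [norm_one] at d2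
        linarith
      rw [inv_mul_lt_iff₀ hC0pos]
      rw [div_lt_iff₀ hη] at hC3
      linarith
    have c4 : pb (xx m v / xx m w) := by
      rw [c2]
      apply hηb
      simpa using c3
    have c5 := hpab b3 c4 c1
    simp only [div_mul_div_cancel₀ hx0] at c5
    rwa [div_eq_one_iff_eq hy0] at c5
  refine ⟨C, fun s => κ (xx m (s + h s)), ?_, ?_, ?_, ?_⟩
  · intro s hs
    have hs' : C < s.re := hs
    have hvr := hvre s hs'
    have hhs : DifferentiableAt ℂ h s := hhd.differentiableAt ((isOpen_halfplane C).mem_nhds hs)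
    apply DifferentiableAt.differentiableWithinAt
    apply DifferentiableAt.fun_comp' (g := κ) (f := fun s => xx m (s + h s))
    · exact (hρ' _ (hxsmall _ hvr)).1.differentiableAt
    · apply DifferentiableAt.fun_comp' (g := xx m) (f := fun s => s + h s)
      · exact differentiableAt_xx m _ (hC0pos.trans hvr)
      · fun_prop
  · intro s hs
    obtain ⟨-, -, -, -, -, a6, a7, -⟩ := hρ' _ (hxsmall _ (hvre s hs))
    exact ⟨a6 (xx_ne_zero _ _), a7⟩
  · intro ε hε
    obtain ⟨ρ₁, hρ₁, hρ₁b⟩ := Metric.eventually_nhds_iff.mp (hκsmall ε hε)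
    refine ⟨1 / ρ₁ ^ m + 2, ?_⟩
    intro s hs hsM
    apply hρ₁b
    rw [dist_zero_right]
    apply norm_xx_lt m hm _ ρ₁ hρ₁
    have e1 : ‖s‖ ≤ ‖s + h s‖ + ‖h s‖ := by
      have := norm_sub_le (s + h s) (h s)
      simpa using this
    have e2 := hhb s hs
    linarith
  · intro s hs
    obtain ⟨-, -, -, -, a5, -, -, -⟩ := hρ' _ (hxsmall _ (hvre s hs))
    rw [a5, hkey s hs]

lemma iteratedDeriv_conj_conj (f : ℂ → ℂ) (n : ℕ) :
    iteratedDeriv n (conj ∘ f ∘ conj) = conj ∘ iteratedDeriv n f ∘ conj := by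
  induction n with
  | zero => simp [iteratedDeriv_zero]
  | succ n ih => rw [iteratedDeriv_succ, iteratedDeriv_succ, ih, deriv_conj_conj]

/-- A holomorphic function whose conjugate is holomorphic has zero derivative. -/
lemma deriv_eq_zero_of_conj (F H : ℂ → ℂ) (z : ℂ) (hF : DifferentiableAt ℂ F z)
    (hH : DifferentiableAt ℂ H z) (hHF : ∀ᶠ w in 𝓝 z, H w = conj (F w)) : deriv F z = 0 := by
  have h1 := (hF.hasDerivAt.hasFDerivAt).restrictScalars ℝ
  have h2 := (Complex.conjCLE.hasFDerivAt (x := F z)).comp z h1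
  have h3 := (hH.hasDerivAt.hasFDerivAt).restrictScalars ℝ
  have h4 : HasFDerivAt H _ z := h2.congr_of_eventuallyEq (by
    filter_upwards [hHF] with w hw
    simp [hw])
  have h5 := h3.unique h4
  have e1 := congrArg (fun L => L 1) h5
  have e2 := congrArg (fun L => L Complex.I) h5
  simp at e1 e2
  have e3 : conj (deriv F z) = 0 := by
    rw [e1] at e2
    have : Complex.I * conj (deriv F z) * 2 = 0 := by linear_combination e2
    simpa using this
  simpa using e3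

/-- The conformal map from the disc to the strip `c < Re s < c + 1/2`. -/
noncomputable def sig (c : ℝ) (ζ : ℂ) : ℂ :=
  ((c + 1 / 4 : ℝ) : ℂ) - Complex.I / (2 * Real.pi) * Complex.log ((1 + ζ) / (1 - ζ))

lemma cay_re (ζ : ℂ) : ((1 + ζ) / (1 - ζ)).re = (1 - ‖ζ‖ ^ 2) / Complex.normSq (1 - ζ) := by
  rw [Complex.div_re, ← Complex.normSq_eq_norm_sq, Complex.normSq_apply ζ, ← add_div]
  congr 1
  simp
  ring

lemma cay_ne_zero (ζ : ℂ) (h1 : ζ ≠ 1) (h2 : ζ ≠ -1) : (1 + ζ) / (1 - ζ) ≠ 0 := by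
  apply div_ne_zero
  · intro h
    exact h2 (by linear_combination h)
  · intro h
    exact h1 (by linear_combination -h)

lemma cay_mem_slitPlane (ζ : ℂ) (hζ : ‖ζ‖ ≤ 1) (h1 : ζ ≠ 1) (h2 : ζ ≠ -1) :
    (1 + ζ) / (1 - ζ) ∈ Complex.slitPlane ∧ 0 ≤ ((1 + ζ) / (1 - ζ)).re := by
  have h3 := cay_ne_zero ζ h1 h2
  have h4 : 0 ≤ ((1 + ζ) / (1 - ζ)).re := by
    rw [cay_re]
    apply div_nonneg _ (Complex.normSq_nonneg _)
    have : ‖ζ‖ ^ 2 ≤ 1 := by
      have := norm_nonneg ζ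
      nlinarith
    linarith
  refine ⟨?_, h4⟩
  rcases h4.lt_or_eq with h | h
  · exact Or.inl h
  · right
    intro him
    exact h3 (Complex.ext (by simpa using h.symm) (by simpa using him))

lemma sig_re (c : ℝ) (ζ : ℂ) :
    (sig c ζ).re = c + 1 / 4 + Complex.arg ((1 + ζ) / (1 - ζ)) / (2 * Real.pi) := by
  have e : Complex.I / (2 * Real.pi) * Complex.log ((1 + ζ) / (1 - ζ)) =
      ((1 / (2 * Real.pi) : ℝ) : ℂ) * (Complex.I * Complex.log ((1 + ζ) / (1 - ζ))) := by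
    push_cast; ring
  rw [sig, e, Complex.sub_re, Complex.ofReal_re, Complex.re_ofReal_mul, Complex.I_mul_re,
    Complex.log_im]
  ring

lemma sig_im (c : ℝ) (ζ : ℂ) :
    (sig c ζ).im = - (Real.log ‖(1 + ζ) / (1 - ζ)‖ / (2 * Real.pi)) := by
  have e : Complex.I / (2 * Real.pi) * Complex.log ((1 + ζ) / (1 - ζ)) =
      ((1 / (2 * Real.pi) : ℝ) : ℂ) * (Complex.I * Complex.log ((1 + ζ) / (1 - ζ))) := by
    push_cast; ring
  rw [sig, e, Complex.sub_im, Complex.ofReal_im, Complex.im_ofReal_mul, Complex.I_mul_im,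
    Complex.log_re]
  ring

lemma sig_re_bounds (c : ℝ) (ζ : ℂ) (hζ : ‖ζ‖ ≤ 1) (h1 : ζ ≠ 1) (h2 : ζ ≠ -1) :
    c ≤ (sig c ζ).re ∧ (sig c ζ).re ≤ c + 1 / 2 := by
  obtain ⟨-, h3⟩ := cay_mem_slitPlane ζ hζ h1 h2
  have h4 := abs_le.mp (Complex.abs_arg_le_pi_div_two_iff.mpr h3)
  rw [sig_re]
  have hpi := Real.pi_pos
  have e1 : -(1/4) ≤ Complex.arg ((1 + ζ) / (1 - ζ)) / (2 * Real.pi) := by
    rw [le_div_iff₀ (by positivity)]
    linarith [h4.1]
  have e2 : Complex.arg ((1 + ζ) / (1 - ζ)) / (2 * Real.pi) ≤ 1/4 := by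
    rw [div_le_iff₀ (by positivity)]
    linarith [h4.2]
  constructor <;> linarith

lemma sig_re_boundary (c : ℝ) (ζ : ℂ) (hζ : ‖ζ‖ = 1) (h1 : ζ ≠ 1) (h2 : ζ ≠ -1) :
    (sig c ζ).re = c ∨ (sig c ζ).re = c + 1 / 2 := by
  have h3 := cay_ne_zero ζ h1 h2
  have h4 : ((1 + ζ) / (1 - ζ)).re = 0 := by
    rw [cay_re, hζ]; simp
  have h5 : ((1 + ζ) / (1 - ζ)).im ≠ 0 := by
    intro him
    exact h3 (Complex.ext (by simpa using h4) (by simpa using him))
  have hpi := Real.pi_pos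
  rw [sig_re]
  rcases lt_or_gt_of_ne h5 with h | h
  · left
    rw [Complex.arg_eq_neg_pi_div_two_iff.mpr ⟨h4, h⟩]
    field_simp
    ring
  · right
    rw [Complex.arg_eq_pi_div_two_iff.mpr ⟨h4, h⟩]
    field_simp
    ring

lemma norm_sig_ge (c : ℝ) (ζ : ℂ) :
    |Real.log ‖(1 + ζ) / (1 - ζ)‖| / (2 * Real.pi) ≤ ‖sig c ζ‖ := by
  have h := Complex.abs_im_le_norm (sig c ζ)
  rw [sig_im, abs_neg, abs_div, abs_of_pos (by positivity : (0:ℝ) < 2 * Real.pi)] at h
  exact h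

lemma tendsto_sig_neg_one (c : ℝ) : Tendsto (fun ζ => ‖sig c ζ‖) (𝓝[≠] (-1)) atTop := by
  have h1 : Tendsto (fun ζ : ℂ => ‖(1 + ζ) / (1 - ζ)‖) (𝓝[≠] (-1)) (𝓝[≠] 0) := by
    apply tendsto_nhdsWithin_of_tendsto_nhds_of_eventually_within
    · have hc : ContinuousAt (fun ζ : ℂ => ‖(1 + ζ) / (1 - ζ)‖) (-1) := by
        apply ContinuousAt.norm
        apply ContinuousAt.div (by fun_prop) (by fun_prop)
        norm_num
      have := hc.tendsto
      simp only [add_neg_cancel, zero_div, norm_zero] at this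
      exact this.mono_left nhdsWithin_le_nhds
    · have hne : ∀ᶠ ζ : ℂ in 𝓝[≠] (-1), ζ ≠ 1 := by
        have : ∀ᶠ ζ : ℂ in 𝓝 (-1), ζ ≠ 1 := eventually_ne_nhds (by norm_num)
        exact this.filter_mono nhdsWithin_le_nhds
      filter_upwards [self_mem_nhdsWithin, hne] with ζ h1 h2
      exact norm_ne_zero_iff.mpr (cay_ne_zero ζ h2 h1)
  have h2 := tendsto_abs_atBot_atTop.comp (Real.tendsto_log_nhdsNE_zero.comp h1)
  have h3 := h2.atTop_div_const (by positivity : (0:ℝ) < 2 * Real.pi)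
  exact tendsto_atTop_mono (fun ζ => norm_sig_ge c ζ) h3

lemma tendsto_sig_one (c : ℝ) : Tendsto (fun ζ => ‖sig c ζ‖) (𝓝[≠] 1) atTop := by
  have h1 : Tendsto (fun ζ : ℂ => ‖(1 - ζ) / (1 + ζ)‖) (𝓝[≠] 1) (𝓝[≠] 0) := by
    apply tendsto_nhdsWithin_of_tendsto_nhds_of_eventually_within
    · have hc : ContinuousAt (fun ζ : ℂ => ‖(1 - ζ) / (1 + ζ)‖) 1 := by
        apply ContinuousAt.norm
        apply ContinuousAt.div (by fun_prop) (by fun_prop)
        norm_num
      have := hc.tendsto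
      simp only [sub_self, zero_div, norm_zero] at this
      exact this.mono_left nhdsWithin_le_nhds
    · have hne : ∀ᶠ ζ : ℂ in 𝓝[≠] 1, ζ ≠ -1 := by
        have : ∀ᶠ ζ : ℂ in 𝓝 1, ζ ≠ -1 := eventually_ne_nhds (by norm_num)
        exact this.filter_mono nhdsWithin_le_nhds
      filter_upwards [self_mem_nhdsWithin, hne] with ζ h1 h2
      rw [mem_compl_iff, mem_singleton_iff, norm_eq_zero]
      have h3 := cay_ne_zero ζ h1 h2
      intro h4
      apply h3
      rw [← inv_div, h4, inv_zero]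
  have h2 := tendsto_abs_atBot_atTop.comp (Real.tendsto_log_nhdsNE_zero.comp h1)
  have h3 := h2.atTop_div_const (by positivity : (0:ℝ) < 2 * Real.pi)
  refine tendsto_atTop_mono (fun ζ => ?_) h3
  refine le_trans (le_of_eq ?_) (norm_sig_ge c ζ)
  simp only [Function.comp]
  rw [← inv_div (1 + ζ) (1 - ζ), norm_inv, Real.log_inv, abs_neg]

lemma continuousAt_sig (c : ℝ) (ζ : ℂ) (hζ : ‖ζ‖ ≤ 1) (h1 : ζ ≠ 1) (h2 : ζ ≠ -1) :
    DifferentiableAt ℂ (sig c) ζ := by
  have h3 := (cay_mem_slitPlane ζ hζ h1 h2).1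
  have h4 : 1 - ζ ≠ 0 := by
    intro h
    exact h1 (by linear_combination -h)
  have h5 : DifferentiableAt ℂ (fun ζ : ℂ => (1 + ζ) / (1 - ζ)) ζ := by
    apply DifferentiableAt.fun_div (by fun_prop) (by fun_prop) h4
  have h6 : DifferentiableAt ℂ (fun ζ : ℂ => Complex.log ((1 + ζ) / (1 - ζ))) ζ := h5.clog h3
  unfold sig
  exact (differentiableAt_const _).fun_sub (h6.const_mul _)

/-- The compact disc `K_{f,r} = {(z², f(z̄)) : |z| ≤ r} ⊂ ℂ²`. -/
def K (f : ℂ → ℂ) (r : ℝ) : Set (ℂ × ℂ) :=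
  {p | ∃ z : ℂ, ‖z‖ ≤ r ∧ p = (z ^ 2, f (conj z))}

/-- If a holomorphic function on the unit disc is conjugate-holomorphic near a point and tends
to `0` at `1`, it is zero at the origin. -/
lemma eq_zero_of_const (F H : ℂ → ℂ) (hF : DifferentiableOn ℂ F (Metric.ball 0 1))
    (hH : DifferentiableOn ℂ H (Metric.ball 0 1)) (V : Set ℂ) (hV : IsOpen V)
    (hVs : V ⊆ Metric.ball 0 1) (z₀ : ℂ) (hz₀ : z₀ ∈ V) (hVF : ∀ z ∈ V, H z = conj (F z))
    (hlim : Tendsto F (𝓝[Metric.ball 0 1] 1) (𝓝 0)) : F 0 = 0 := by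
  have hd : ∀ z ∈ V, deriv F z = 0 := by
    intro z hz
    have hb : Metric.ball (0:ℂ) 1 ∈ 𝓝 z := Metric.isOpen_ball.mem_nhds (hVs hz)
    apply deriv_eq_zero_of_conj F H z (hF.differentiableAt hb) (hH.differentiableAt hb)
    filter_upwards [hV.mem_nhds hz] with w hw
    exact hVF w hw
  have hA : AnalyticOnNhd ℂ (deriv F) (Metric.ball 0 1) :=
    (hF.analyticOnNhd Metric.isOpen_ball).deriv
  have hball : IsPreconnected (Metric.ball (0:ℂ) 1) := (convex_ball (0:ℂ) 1).isPreconnected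
  have hd' : EqOn (deriv F) 0 (Metric.ball 0 1) := by
    apply hA.eqOn_zero_of_preconnected_of_eventuallyEq_zero hball (hVs hz₀)
    filter_upwards [hV.mem_nhds hz₀] with z hz
    exact hd z hz
  have hconst : ∀ z ∈ Metric.ball (0:ℂ) 1, F z = F 0 := by
    intro z hz
    have := (convex_ball (0:ℂ) 1).norm_image_sub_le_of_norm_deriv_le (𝕜 := ℂ) (f := F) (C := 0)
      (fun x hx => hF.differentiableAt (Metric.isOpen_ball.mem_nhds hx))
      (fun x hx => by rw [hd' hx]; simp) (Metric.mem_ball_self one_pos) hz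
    rw [zero_mul] at this
    exact sub_eq_zero.mp (norm_le_zero_iff.mp this)
  have hne : (𝓝[Metric.ball (0:ℂ) 1] 1).NeBot := by
    rw [← mem_closure_iff_nhdsWithin_neBot, closure_ball _ one_ne_zero]
    simp
  have hlim2 : Tendsto F (𝓝[Metric.ball 0 1] 1) (𝓝 (F 0)) := by
    have : Tendsto (fun _ : ℂ => F 0) (𝓝[Metric.ball 0 1] 1) (𝓝 (F 0)) := tendsto_const_nhds
    refine this.congr' ?_
    filter_upwards [self_mem_nhdsWithin] with z hz
    exact (hconst z hz).symm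
  exact tendsto_nhds_unique hlim2 hlim

/-- **Theorem.** For every `r > 0` and every `f` holomorphic on the closed disc `|z| ≤ r` with
`f(z) = z² + a₃ z³ + ...` (complex coefficients) and some odd-index Taylor coefficient
`a_{2n+1} ≠ 0`, `n ≥ 1`, the compact disc `K_{f,r}` admits an attached analytic disc which is not
contained in `K_{f,r}`. -/
theorem result (r : ℝ) (hr : 0 < r) (f : ℂ → ℂ) (hf : AnalyticOnNhd ℂ f (Metric.closedBall 0 r))
    (h0 : f 0 = 0) (h1 : deriv f 0 = 0) (h2 : iteratedDeriv 2 f 0 = 2)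
    (hodd : ∃ n : ℕ, 1 ≤ n ∧ iteratedDeriv (2 * n + 1) f 0 ≠ 0) :
    ∃ φ : ℂ → ℂ × ℂ, ContinuousOn φ (Metric.closedBall 0 1) ∧
      DifferentiableOn ℂ φ (Metric.ball 0 1) ∧
      (∀ ζ ∈ Metric.sphere (0:ℂ) 1, φ ζ ∈ K f r) ∧
      ¬ (∀ ζ ∈ Metric.closedBall (0:ℂ) 1, φ ζ ∈ K f r) := by
  set q : ℂ → ℂ := conj ∘ f ∘ conj with hqdef
  have hfd : ∀ z : ℂ, ‖z‖ ≤ r → DifferentiableAt ℂ f z := by
    intro z hz
    exact (hf z (by simpa using hz)).differentiableAt
  have hqd : ∀ z : ℂ, ‖z‖ ≤ r → DifferentiableAt ℂ q z := by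
    intro z hz
    rw [hqdef, differentiableAt_conj_conj_iff]
    exact hfd _ (by simpa using hz)
  have hqA : AnalyticAt ℂ q 0 := by
    rw [Complex.analyticAt_iff_eventually_differentiableAt]
    filter_upwards [Metric.ball_mem_nhds (0:ℂ) hr] with z hz
    exact hqd z (by simpa using (Metric.mem_ball.mp hz).le)
  have hq0 : q 0 = 0 := by simp [hqdef, h0]
  have hq1 : deriv q 0 = 0 := by
    rw [hqdef, deriv_conj_conj]
    simp [h1]
  have hq2 : iteratedDeriv 2 q 0 = 2 := by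
    rw [hqdef, iteratedDeriv_conj_conj]
    simp only [Function.comp, map_zero, h2]
    exact map_ofNat (starRingEnd ℂ) 2
  have hqodd : ¬ ∀ᶠ z in 𝓝 0, q (-z) = q z := by
    intro hcon
    obtain ⟨n, -, hn⟩ := hodd
    apply hn
    have e1 : (fun z => q (-z)) =ᶠ[𝓝 0] q := hcon
    have e2 := e1.iteratedDeriv_eq (2 * n + 1)
    rw [iteratedDeriv_comp_neg] at e2
    have e3 : (-1 : ℂ) ^ (2 * n + 1) = -1 := Odd.neg_one_pow ⟨n, rfl⟩
    rw [e3] at e2
    simp only [neg_zero, smul_eq_mul, neg_mul, one_mul] at e2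
    have e4 : iteratedDeriv (2 * n + 1) q 0 = 0 := by
      have : (2:ℂ) * iteratedDeriv (2 * n + 1) q 0 = 0 := by linear_combination -e2
      simpa using this
    rw [hqdef, iteratedDeriv_conj_conj] at e4
    simpa using e4
  -- `q` has no other zeros near `0`
  have hqne : ∀ᶠ z in 𝓝[≠] (0:ℂ), q z ≠ 0 := by
    rcases hqA.eventually_eq_zero_or_eventually_ne_zero with h | h
    · exfalso
      have e1 : q =ᶠ[𝓝 0] (fun _ => 0) := h
      have e2 := e1.iteratedDeriv_eq 2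
      rw [hq2] at e2
      simp at e2
    · exact h
  obtain ⟨r₁, hr₁, hr₁q⟩ : ∃ r₁ > 0, ∀ z : ℂ, z ≠ 0 → ‖z‖ < r₁ → q z ≠ 0 := by
    rw [eventually_nhdsWithin_iff, Metric.eventually_nhds_iff] at hqne
    obtain ⟨r₁, hr₁, h⟩ := hqne
    exact ⟨r₁, hr₁, fun z hz hz' => h (by simpa using hz') hz⟩
  obtain ⟨C, Ψ, hΨd, hΨb, hΨlim, hΨq⟩ := exists_psi q hqA hq0 hq1 hq2 hqodd (min r r₁)
    (lt_min hr hr₁)
  have hΨ0 : ∀ s : ℂ, C < s.re → Ψ s ≠ 0 := fun s hs => (hΨb s hs).1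
  have hΨr : ∀ s : ℂ, C < s.re → ‖Ψ s‖ ≤ r := fun s hs =>
    ((hΨb s hs).2.trans_le (min_le_left _ _)).le
  have hΨr₁ : ∀ s : ℂ, C < s.re → ‖Ψ s‖ < r₁ := fun s hs =>
    (hΨb s hs).2.trans_le (min_le_right _ _)
  set c : ℝ := C + 1 with hc
  -- the reflected point
  set ρ : ℂ → ℂ := fun s => conj ((2 * c : ℝ) - s) with hρ
  have hρre : ∀ s, (ρ s).re = 2 * c - s.re := by
    intro s
    simp only [hρ, Complex.conj_re, Complex.sub_re, Complex.ofReal_re]
  have hstrip : ∀ s : ℂ, c ≤ s.re → s.re ≤ c + 1 / 2 → C < s.re ∧ C < (ρ s).re := by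
    intro s hs1 hs2
    rw [hρre]
    constructor <;> linarith
  -- the second component
  set φ₂ : ℂ → ℂ := fun s => f (conj (Ψ (ρ s))) with hφ₂
  have hφ₂d : ∀ s : ℂ, C < (ρ s).re → DifferentiableAt ℂ φ₂ s := by
    intro s hs
    have e1 : DifferentiableAt ℂ (conj ∘ Ψ ∘ conj) ((2 * c : ℝ) - s) := by
      rw [differentiableAt_conj_conj_iff]
      exact hΨd.differentiableAt ((isOpen_halfplane C).mem_nhds hs)
    have e2 : DifferentiableAt ℂ (fun s : ℂ => (((2 * c : ℝ) : ℂ) - s)) s := by fun_prop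
    have e3 := DifferentiableAt.fun_comp' (g := conj ∘ Ψ ∘ conj)
      (f := fun s : ℂ => (((2 * c : ℝ) : ℂ) - s)) s e1 e2
    apply DifferentiableAt.fun_comp' (g := f) (f := fun s => conj (Ψ (ρ s)))
    · apply hfd
      rw [RCLike.norm_conj]
      exact hΨr _ hs
    · exact e3
  have hΨdiff : ∀ s : ℂ, C < s.re → DifferentiableAt ℂ Ψ s := by
    intro s hs
    exact hΨd.differentiableAt ((isOpen_halfplane C).mem_nhds hs)
  -- values of the second component
  have hfq : ∀ z, f (conj z) = conj (q z) := by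
    intro z; simp [hqdef]
  have hleft : ∀ s : ℂ, s.re = c → φ₂ s = f (conj (Ψ s)) := by
    intro s hs
    have : ρ s = s := by
      apply Complex.ext
      · rw [hρre, hs]; ring
      · simp [hρ]
    simp only [hφ₂, this]
  have hright : ∀ s : ℂ, s.re = c + 1 / 2 → φ₂ s = f (conj (-Ψ s)) := by
    intro s hs
    have e1 : ρ s = s - 1 := by
      apply Complex.ext
      · rw [hρre, Complex.sub_re, hs, Complex.one_re]; ring
      · simp [hρ]
    have e2 : C < (s - 1).re := by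
      rw [Complex.sub_re, hs, Complex.one_re, hc]; linarith
    have e3 := hΨq (s - 1) e2
    rw [sub_add_cancel] at e3
    simp only [hφ₂, e1]
    rw [hfq, e3, hfq]
  classical
  set φ : ℂ → ℂ × ℂ := fun ζ => if ζ = 1 ∨ ζ = -1 then (0, 0) else
    ((Ψ (sig c ζ)) ^ 2, φ₂ (sig c ζ)) with hφ
  have hφ1 : ∀ ζ, ζ ≠ 1 → ζ ≠ -1 → φ ζ = ((Ψ (sig c ζ)) ^ 2, φ₂ (sig c ζ)) := by
    intro ζ h1 h2
    simp only [hφ]
    rw [if_neg]
    push Not
    exact ⟨h1, h2⟩
  have hφ0 : ∀ ζ, (ζ = 1 ∨ ζ = -1) → φ ζ = (0, 0) := by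
    intro ζ h
    simp only [hφ]
    rw [if_pos h]
  -- differentiability off `±1`
  have hφd : ∀ ζ : ℂ, ‖ζ‖ ≤ 1 → ζ ≠ 1 → ζ ≠ -1 → DifferentiableAt ℂ φ ζ := by
    intro ζ hζ h1 h2
    have hb := sig_re_bounds c ζ hζ h1 h2
    have hs := hstrip _ hb.1 hb.2
    have hsd := continuousAt_sig c ζ hζ h1 h2
    have e1 : DifferentiableAt ℂ (fun ζ => Ψ (sig c ζ)) ζ :=
      DifferentiableAt.fun_comp' (g := Ψ) (f := sig c) ζ (hΨdiff _ hs.1) hsd
    have e2 : DifferentiableAt ℂ (fun ζ => φ₂ (sig c ζ)) ζ :=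
      DifferentiableAt.fun_comp' (g := φ₂) (f := sig c) ζ (hφ₂d _ hs.2) hsd
    have e3 : DifferentiableAt ℂ (fun ζ => ((Ψ (sig c ζ)) ^ 2, φ₂ (sig c ζ))) ζ :=
      (e1.fun_pow 2).prodMk e2
    apply e3.congr_of_eventuallyEq
    filter_upwards [eventually_ne_nhds h1, eventually_ne_nhds h2] with w hw1 hw2
    exact hφ1 w hw1 hw2
  -- decay of `Ψ ∘ sig` and `Ψ ∘ ρ ∘ sig`
  have hdecay : ∀ a : ℂ, (a = 1 ∨ a = -1) → ∀ ε > 0,
      ∀ᶠ ζ in 𝓝[Metric.closedBall 0 1] a, ζ ≠ 1 → ζ ≠ -1 →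
        ‖Ψ (sig c ζ)‖ < ε ∧ ‖Ψ (ρ (sig c ζ))‖ < ε := by
    intro a ha ε hε
    obtain ⟨M, hM⟩ := hΨlim ε hε
    have ht : Tendsto (fun ζ => ‖sig c ζ‖) (𝓝[≠] a) atTop := by
      rcases ha with h | h
      · rw [h]; exact tendsto_sig_one c
      · rw [h]; exact tendsto_sig_neg_one c
    have hev : ∀ᶠ ζ in 𝓝[≠] a, |M| + |2 * c| ≤ ‖sig c ζ‖ :=
      ht.eventually (eventually_ge_atTop (|M| + |2 * c|))
    rw [eventually_nhdsWithin_iff] at hev
    have hev2 := hev.filter_mono (nhdsWithin_le_nhds (s := Metric.closedBall (0:ℂ) 1))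
    filter_upwards [hev2, self_mem_nhdsWithin] with ζ h3 h4 h5 h6
    have hζa : ζ ∈ ({a}ᶜ : Set ℂ) := by
      rcases ha with h | h
      · rw [h]; exact h5
      · rw [h]; exact h6
    have h7 := h3 hζa
    have hζ1 : ‖ζ‖ ≤ 1 := by simpa using h4
    have hb := sig_re_bounds c ζ hζ1 h5 h6
    have hs := hstrip _ hb.1 hb.2
    have hM0 := le_abs_self M
    have hc0 := abs_nonneg (2 * c)
    constructor
    · apply hM _ hs.1
      linarith
    · apply hM _ hs.2
      have e1 : ‖ρ (sig c ζ)‖ = ‖((2 * c : ℝ) : ℂ) - sig c ζ‖ := by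
        simp only [hρ, RCLike.norm_conj]
      have e2 : ‖sig c ζ‖ - ‖((2 * c : ℝ) : ℂ)‖ ≤ ‖((2 * c : ℝ) : ℂ) - sig c ζ‖ := by
        rw [norm_sub_rev]
        exact norm_sub_norm_le _ _
      have e3 : ‖((2 * c : ℝ) : ℂ)‖ = |2 * c| := Complex.norm_real _
      rw [e1]
      rw [e3] at e2
      linarith
  -- continuity at `±1`
  have hcont1 : ∀ a : ℂ, (a = 1 ∨ a = -1) → Tendsto φ (𝓝[Metric.closedBall 0 1] a) (𝓝 (0, 0)) := by
    intro a ha
    rw [nhds_prod_eq]
    have hfc : ContinuousAt f 0 := (hfd 0 (by simpa using hr.le)).continuousAt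
    refine Tendsto.prodMk (f := 𝓝[Metric.closedBall 0 1] a) (m₁ := fun ζ => (φ ζ).1)
      (m₂ := fun ζ => (φ ζ).2) ?_ ?_
    · rw [Metric.tendsto_nhds]
      intro ε hε
      filter_upwards [hdecay a ha (min 1 ε) (lt_min one_pos hε)] with ζ h3
      by_cases h : ζ = 1 ∨ ζ = -1
      · rw [hφ0 ζ h]; simpa using hε
      · push Not at h
        have h4 := (h3 h.1 h.2).1
        rw [hφ1 ζ h.1 h.2, dist_zero_right, norm_pow]
        have h5 : ‖Ψ (sig c ζ)‖ < 1 := h4.trans_le (min_le_left _ _)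
        have h6 : ‖Ψ (sig c ζ)‖ < ε := h4.trans_le (min_le_right _ _)
        have h7 := norm_nonneg (Ψ (sig c ζ))
        nlinarith
    · rw [Metric.tendsto_nhds]
      intro ε hε
      rw [Metric.continuousAt_iff] at hfc
      obtain ⟨η, hη, hfη⟩ := hfc ε hε
      filter_upwards [hdecay a ha η hη] with ζ h3
      by_cases h : ζ = 1 ∨ ζ = -1
      · rw [hφ0 ζ h]; simpa using hε
      · push Not at h
        have h4 := (h3 h.1 h.2).2
        rw [hφ1 ζ h.1 h.2]
        have h5 : dist (conj (Ψ (ρ (sig c ζ)))) 0 < η := by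
          rw [dist_zero_right, RCLike.norm_conj]
          exact h4
        have h6 := hfη h5
        rw [h0] at h6
        exact h6
  refine ⟨φ, ?_, ?_, ?_, ?_⟩
  · -- continuity
    intro ζ hζ
    by_cases h : ζ = 1 ∨ ζ = -1
    · have := hcont1 ζ h
      unfold ContinuousWithinAt
      rw [hφ0 ζ h]
      exact this
    · push Not at h
      exact (hφd ζ (by simpa using hζ) h.1 h.2).continuousAt.continuousWithinAt
  · -- holomorphy
    intro ζ hζ
    have hζ' : ‖ζ‖ < 1 := by simpa using hζ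
    apply DifferentiableAt.differentiableWithinAt
    apply hφd ζ hζ'.le
    · rintro rfl; simp at hζ'
    · rintro rfl; simp at hζ'
  · -- boundary values
    intro ζ hζ
    have hζ' : ‖ζ‖ = 1 := by simpa using hζ
    by_cases h : ζ = 1 ∨ ζ = -1
    · rw [hφ0 ζ h]
      exact ⟨0, by simpa using hr.le, by simp [h0]⟩
    · push Not at h
      rw [hφ1 ζ h.1 h.2]
      have hb := sig_re_bounds c ζ hζ'.le h.1 h.2
      have hs := hstrip _ hb.1 hb.2
      rcases sig_re_boundary c ζ hζ' h.1 h.2 with h3 | h3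
      · exact ⟨Ψ (sig c ζ), hΨr _ hs.1, by rw [hleft _ h3]⟩
      · refine ⟨-Ψ (sig c ζ), by rw [norm_neg]; exact hΨr _ hs.1, ?_⟩
        rw [hright _ h3, neg_sq]
  · -- not contained in `K`
    intro hall
    set D : Set ℂ := Metric.ball (0:ℂ) 1 with hD
    have hDne : ∀ ζ ∈ D, ‖ζ‖ ≤ 1 ∧ ζ ≠ 1 ∧ ζ ≠ -1 := by
      intro ζ hζ
      have hζ' : ‖ζ‖ < 1 := by simpa [hD] using hζ
      refine ⟨hζ'.le, ?_, ?_⟩
      · rintro rfl; simp at hζ'
      · rintro rfl; simp at hζ'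
    have hDs : ∀ ζ ∈ D, C < (sig c ζ).re ∧ C < (ρ (sig c ζ)).re := by
      intro ζ hζ
      obtain ⟨a1, a2, a3⟩ := hDne ζ hζ
      have hb := sig_re_bounds c ζ a1 a2 a3
      exact hstrip _ hb.1 hb.2
    have hHd : DifferentiableOn ℂ (fun ζ => φ₂ (sig c ζ)) D := by
      intro ζ hζ
      obtain ⟨a1, a2, a3⟩ := hDne ζ hζ
      exact (DifferentiableAt.fun_comp' (g := φ₂) (f := sig c) ζ (hφ₂d _ (hDs ζ hζ).2)
        (continuousAt_sig c ζ a1 a2 a3)).differentiableWithinAt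
    have hΨsd : ∀ ζ ∈ D, DifferentiableAt ℂ (fun ζ => Ψ (sig c ζ)) ζ := by
      intro ζ hζ
      obtain ⟨a1, a2, a3⟩ := hDne ζ hζ
      exact DifferentiableAt.fun_comp' (g := Ψ) (f := sig c) ζ (hΨdiff _ (hDs ζ hζ).1)
        (continuousAt_sig c ζ a1 a2 a3)
    have hFp : DifferentiableOn ℂ (fun ζ => q (Ψ (sig c ζ))) D := by
      intro ζ hζ
      exact (DifferentiableAt.fun_comp' (g := q) (f := fun ζ => Ψ (sig c ζ)) ζ
        (hqd _ (hΨr _ (hDs ζ hζ).1)) (hΨsd ζ hζ)).differentiableWithinAt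
    have hFm : DifferentiableOn ℂ (fun ζ => q (-Ψ (sig c ζ))) D := by
      intro ζ hζ
      exact (DifferentiableAt.fun_comp' (g := q) (f := fun ζ => -Ψ (sig c ζ)) ζ
        (hqd _ (by rw [norm_neg]; exact hΨr _ (hDs ζ hζ).1)) (hΨsd ζ hζ).fun_neg).differentiableWithinAt
    have halt : ∀ ζ ∈ D, φ₂ (sig c ζ) = conj (q (Ψ (sig c ζ))) ∨
        φ₂ (sig c ζ) = conj (q (-Ψ (sig c ζ))) := by
      intro ζ hζ
      obtain ⟨a1, a2, a3⟩ := hDne ζ hζ
      have h3 := hall ζ (by simpa using a1)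
      rw [hφ1 ζ a2 a3] at h3
      obtain ⟨z, hz, hzeq⟩ := h3
      rw [Prod.mk.injEq] at hzeq
      obtain ⟨b1, b2⟩ := hzeq
      rw [hfq] at b2
      rcases sq_eq_sq_iff_eq_or_eq_neg.mp b1 with h4 | h4
      · left; rw [b2, h4]
      · right
        rw [b2, h4, neg_neg]
    -- limits at 1
    have hΨt : Tendsto (fun ζ => Ψ (sig c ζ)) (𝓝[D] 1) (𝓝 0) := by
      rw [Metric.tendsto_nhds]
      intro ε hε
      have h3 := (hdecay 1 (Or.inl rfl) ε hε).filter_mono
        (nhdsWithin_mono 1 (Metric.ball_subset_closedBall (x := (0:ℂ)) (ε := 1)))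
      filter_upwards [h3, self_mem_nhdsWithin] with ζ h4 h5
      obtain ⟨a1, a2, a3⟩ := hDne ζ h5
      rw [dist_zero_right]
      exact (h4 a2 a3).1
    have hqt : Tendsto q (𝓝 0) (𝓝 0) := by
      have := hqA.continuousAt.tendsto
      rwa [hq0] at this
    have hFpt : Tendsto (fun ζ => q (Ψ (sig c ζ))) (𝓝[D] 1) (𝓝 0) := hqt.comp hΨt
    have hFmt : Tendsto (fun ζ => q (-Ψ (sig c ζ))) (𝓝[D] 1) (𝓝 0) := by
      have : Tendsto (fun ζ => -Ψ (sig c ζ)) (𝓝[D] 1) (𝓝 0) := by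
        have := hΨt.neg
        rwa [neg_zero] at this
      exact hqt.comp this
    have h0D : (0:ℂ) ∈ D := by simp [hD]
    have hs0 := hDs 0 h0D
    set V : Set ℂ := {ζ | ζ ∈ D ∧ φ₂ (sig c ζ) ≠ conj (q (Ψ (sig c ζ)))} with hVdef
    have hVo : IsOpen V := by
      have hcont : ContinuousOn (fun ζ => φ₂ (sig c ζ) - conj (q (Ψ (sig c ζ)))) D :=
        hHd.continuousOn.sub (Complex.continuous_conj.comp_continuousOn hFp.continuousOn)
      have := hcont.isOpen_inter_preimage Metric.isOpen_ball (isOpen_compl_singleton (x := (0:ℂ)))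
      convert this using 1
      ext ζ
      simp [hVdef, sub_eq_zero]
    by_cases hVe : V.Nonempty
    · obtain ⟨z₀, hz₀⟩ := hVe
      have := eq_zero_of_const (fun ζ => q (-Ψ (sig c ζ))) (fun ζ => φ₂ (sig c ζ)) hFm hHd V hVo
        (fun z hz => hz.1) z₀ hz₀ (fun z hz => (halt z hz.1).resolve_left hz.2) hFmt
      exact hr₁q _ (neg_ne_zero.mpr (hΨ0 _ hs0.1)) (by rw [norm_neg]; exact hΨr₁ _ hs0.1) this
    · rw [Set.not_nonempty_iff_eq_empty] at hVe
      have hall2 : ∀ z ∈ D, φ₂ (sig c z) = conj (q (Ψ (sig c z))) := by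
        intro z hz
        by_contra hcon
        have : z ∈ V := ⟨hz, hcon⟩
        rw [hVe] at this
        exact this
      have := eq_zero_of_const (fun ζ => q (Ψ (sig c ζ))) (fun ζ => φ₂ (sig c ζ)) hFp hHd D
        Metric.isOpen_ball (fun z hz => hz) 0 h0D hall2 hFpt
      exact hr₁q _ (hΨ0 _ hs0.1) (hΨr₁ _ hs0.1) this

end Pool.Agent.Results.MP_543b58_an.AttachedDisc
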